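import Pool.Agent.W928.MW.Stm

/-!
# Project MW: a convergent triple sum (subtask MW-NEAR)
-/

set_option autoImplicit false

open Finset

namespace Pool.Agent.W327.MWNEAR

lemma sum_inj_le (f : ℕ → ℝ) (hf : ∀ n, 0 ≤ f n) (hs : Summable f) (s : Finset ℕ) (φ : ℕ → ℕ)
    (hφ : Set.InjOn φ s) : ∑ y ∈ s, f (φ y) ≤ ∑' n, f n := by
  rw [← Finset.sum_image hφ]
  exact hs.sum_le_tsum _ (fun n _ => hf n)

/-- the inner sum -/
lemma inner (N x : ℕ) :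
    ∑ y ∈ (Icc 1 N).filter (fun y => y ≠ x), (|(x : ℝ) - (y : ℝ)|) ^ (-(5 / 4 : ℝ)) ≤
      2 * ∑' n : ℕ, (n : ℝ) ^ (-(5 / 4 : ℝ)) := by
  have hs : Summable (fun n : ℕ => (n : ℝ) ^ (-(5 / 4 : ℝ))) :=
    Real.summable_nat_rpow.mpr (by norm_num)
  have hf : ∀ n : ℕ, 0 ≤ (n : ℝ) ^ (-(5 / 4 : ℝ)) := fun n => by positivity
  rw [← Finset.sum_filter_add_sum_filter_not ((Icc 1 N).filter (fun y => y ≠ x))
    (fun y => y < x)]
  have h1 : ∑ y ∈ ((Icc 1 N).filter (fun y => y ≠ x)).filter (fun y => y < x),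
      (|(x : ℝ) - (y : ℝ)|) ^ (-(5 / 4 : ℝ)) ≤ ∑' n : ℕ, (n : ℝ) ^ (-(5 / 4 : ℝ)) := by
    have h := sum_inj_le _ hf hs (((Icc 1 N).filter (fun y => y ≠ x)).filter (fun y => y < x))
      (fun y => x - y) (by
        intro a ha b hb hab
        simp only [Finset.coe_filter, Set.mem_setOf_eq] at ha hb
        simp only at hab
        omega)
    refine le_trans (le_of_eq (Finset.sum_congr rfl ?_)) h
    intro y hy
    rw [Finset.mem_filter] at hy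
    rw [Nat.cast_sub hy.2.le, abs_of_nonneg]
    exact sub_nonneg.mpr (by exact_mod_cast hy.2.le)
  have h2 : ∑ y ∈ ((Icc 1 N).filter (fun y => y ≠ x)).filter (fun y => ¬ y < x),
      (|(x : ℝ) - (y : ℝ)|) ^ (-(5 / 4 : ℝ)) ≤ ∑' n : ℕ, (n : ℝ) ^ (-(5 / 4 : ℝ)) := by
    have h := sum_inj_le _ hf hs (((Icc 1 N).filter (fun y => y ≠ x)).filter (fun y => ¬ y < x))
      (fun y => y - x) (by
        intro a ha b hb hab
        simp only [Finset.coe_filter, Set.mem_setOf_eq] at ha hb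
        simp only at hab
        omega)
    refine le_trans (le_of_eq (Finset.sum_congr rfl ?_)) h
    intro y hy
    rw [Finset.mem_filter] at hy
    have hle : x ≤ y := not_lt.mp hy.2
    rw [Nat.cast_sub hle, abs_sub_comm, abs_of_nonneg]
    exact sub_nonneg.mpr (by exact_mod_cast hle)
  linarith

/-- the pointwise bound -/
lemma term_le (x c d M : ℝ) (hx : 0 < x) (hc : 0 < c) (hd : 0 < d) (hxM : x ≤ M) (hcM : c ≤ M)
    (hdM : d ≤ M) :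
    1 / (c * d * M ^ 2) ≤ x ^ (-(3 / 2 : ℝ)) * (c ^ (-(5 / 4 : ℝ)) * d ^ (-(5 / 4 : ℝ))) := by
  have hM : 0 < M := lt_of_lt_of_le hx hxM
  have e1 : c ^ (-(5 / 4 : ℝ)) = 1 / (c * c ^ (1 / 4 : ℝ)) := by
    rw [Real.rpow_neg hc.le, one_div]
    congr 1
    have : (5 / 4 : ℝ) = 1 + 1 / 4 := by norm_num
    rw [this, Real.rpow_add hc, Real.rpow_one]
  have e2 : d ^ (-(5 / 4 : ℝ)) = 1 / (d * d ^ (1 / 4 : ℝ)) := by
    rw [Real.rpow_neg hd.le, one_div]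
    congr 1
    have : (5 / 4 : ℝ) = 1 + 1 / 4 := by norm_num
    rw [this, Real.rpow_add hd, Real.rpow_one]
  have e3 : x ^ (-(3 / 2 : ℝ)) = 1 / x ^ (3 / 2 : ℝ) := by
    rw [Real.rpow_neg hx.le, one_div]
  rw [e1, e2, e3, div_mul_div_comm, div_mul_div_comm, one_mul, one_mul]
  have hxp : 0 < x ^ (3 / 2 : ℝ) := Real.rpow_pos_of_pos hx _
  have hcp : 0 < c ^ (1 / 4 : ℝ) := Real.rpow_pos_of_pos hc _
  have hdp : 0 < d ^ (1 / 4 : ℝ) := Real.rpow_pos_of_pos hd _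
  apply one_div_le_one_div_of_le (by positivity)
  have g1 : x ^ (3 / 2 : ℝ) ≤ M ^ (3 / 2 : ℝ) := Real.rpow_le_rpow hx.le hxM (by norm_num)
  have g2 : c ^ (1 / 4 : ℝ) ≤ M ^ (1 / 4 : ℝ) := Real.rpow_le_rpow hc.le hcM (by norm_num)
  have g3 : d ^ (1 / 4 : ℝ) ≤ M ^ (1 / 4 : ℝ) := Real.rpow_le_rpow hd.le hdM (by norm_num)
  have g4 : M ^ (3 / 2 : ℝ) * (M ^ (1 / 4 : ℝ) * M ^ (1 / 4 : ℝ)) = M ^ 2 := by
    rw [← Real.rpow_add hM, ← Real.rpow_add hM, ← Real.rpow_natCast]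
    norm_num
  have g5 : x ^ (3 / 2 : ℝ) * (c ^ (1 / 4 : ℝ) * d ^ (1 / 4 : ℝ)) ≤ M ^ 2 := by
    rw [← g4]
    exact mul_le_mul g1 (mul_le_mul g2 g3 hdp.le (by positivity)) (by positivity) (by positivity)
  calc x ^ (3 / 2 : ℝ) * (c * c ^ (1 / 4 : ℝ) * (d * d ^ (1 / 4 : ℝ)))
      = (c * d) * (x ^ (3 / 2 : ℝ) * (c ^ (1 / 4 : ℝ) * d ^ (1 / 4 : ℝ))) := by ring
    _ ≤ (c * d) * M ^ 2 := mul_le_mul_of_nonneg_left g5 (by positivity)

theorem t : Pool.Agent.W928.MW.S_NEAR := by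
  have hs : Summable (fun n : ℕ => (n : ℝ) ^ (-(3 / 2 : ℝ))) :=
    Real.summable_nat_rpow.mpr (by norm_num)
  have hf : ∀ n : ℕ, 0 ≤ (n : ℝ) ^ (-(3 / 2 : ℝ)) := fun n => by positivity
  have hA : 0 ≤ ∑' n : ℕ, (n : ℝ) ^ (-(3 / 2 : ℝ)) := tsum_nonneg hf
  refine ⟨(∑' n : ℕ, (n : ℝ) ^ (-(3 / 2 : ℝ))) *
    (2 * ∑' n : ℕ, (n : ℝ) ^ (-(5 / 4 : ℝ))) ^ 2 + 1, by positivity, ?_⟩
  intro N
  have key : ∀ x ∈ Icc 1 N, ∑ y ∈ (Icc 1 N).filter (fun y => y ≠ x),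
      ∑ z ∈ (Icc 1 N).filter (fun z => z ≠ x),
        1 / (|(x : ℝ) - (y : ℝ)| * |(x : ℝ) - (z : ℝ)| *
          (max (x : ℝ) (max (y : ℝ) (z : ℝ))) ^ 2) ≤
      (x : ℝ) ^ (-(3 / 2 : ℝ)) * (2 * ∑' n : ℕ, (n : ℝ) ^ (-(5 / 4 : ℝ))) ^ 2 := by
    intro x hx
    rw [Finset.mem_Icc] at hx
    have hx0 : (0 : ℝ) < x := by exact_mod_cast hx.1
    have hI := inner N x
    have hI0 : 0 ≤ ∑ y ∈ (Icc 1 N).filter (fun y => y ≠ x),
        (|(x : ℝ) - (y : ℝ)|) ^ (-(5 / 4 : ℝ)) :=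
      Finset.sum_nonneg (fun y _ => by positivity)
    calc ∑ y ∈ (Icc 1 N).filter (fun y => y ≠ x), ∑ z ∈ (Icc 1 N).filter (fun z => z ≠ x),
          1 / (|(x : ℝ) - (y : ℝ)| * |(x : ℝ) - (z : ℝ)| *
            (max (x : ℝ) (max (y : ℝ) (z : ℝ))) ^ 2)
        ≤ ∑ y ∈ (Icc 1 N).filter (fun y => y ≠ x), ∑ z ∈ (Icc 1 N).filter (fun z => z ≠ x),
          (x : ℝ) ^ (-(3 / 2 : ℝ)) * ((|(x : ℝ) - (y : ℝ)|) ^ (-(5 / 4 : ℝ)) *
            (|(x : ℝ) - (z : ℝ)|) ^ (-(5 / 4 : ℝ))) := by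
          apply Finset.sum_le_sum
          intro y hy
          apply Finset.sum_le_sum
          intro z hz
          rw [Finset.mem_filter, Finset.mem_Icc] at hy hz
          have hy0 : (0 : ℝ) < y := by exact_mod_cast hy.1.1
          have hz0 : (0 : ℝ) < z := by exact_mod_cast hz.1.1
          have hc : 0 < |(x : ℝ) - (y : ℝ)| := by
            apply abs_pos.mpr
            intro h
            exact hy.2 (by exact_mod_cast (sub_eq_zero.mp h).symm)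
          have hd : 0 < |(x : ℝ) - (z : ℝ)| := by
            apply abs_pos.mpr
            intro h
            exact hz.2 (by exact_mod_cast (sub_eq_zero.mp h).symm)
          have m1 : (x : ℝ) ≤ max (x : ℝ) (max (y : ℝ) (z : ℝ)) := le_max_left _ _
          have m2 : (y : ℝ) ≤ max (x : ℝ) (max (y : ℝ) (z : ℝ)) :=
            le_trans (le_max_left _ _) (le_max_right _ _)
          have m3 : (z : ℝ) ≤ max (x : ℝ) (max (y : ℝ) (z : ℝ)) :=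
            le_trans (le_max_right _ _) (le_max_right _ _)
          apply term_le _ _ _ _ hx0 hc hd m1
          · rw [abs_le]
            constructor <;> linarith
          · rw [abs_le]
            constructor <;> linarith
      _ = (x : ℝ) ^ (-(3 / 2 : ℝ)) * (∑ y ∈ (Icc 1 N).filter (fun y => y ≠ x),
            (|(x : ℝ) - (y : ℝ)|) ^ (-(5 / 4 : ℝ))) ^ 2 := by
          rw [sq, Finset.sum_mul_sum, Finset.mul_sum]
          apply Finset.sum_congr rfl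
          intro y _
          rw [Finset.mul_sum]
      _ ≤ (x : ℝ) ^ (-(3 / 2 : ℝ)) * (2 * ∑' n : ℕ, (n : ℝ) ^ (-(5 / 4 : ℝ))) ^ 2 := by
          apply mul_le_mul_of_nonneg_left _ (by positivity)
          exact pow_le_pow_left₀ hI0 hI 2
  calc _ ≤ ∑ x ∈ Icc 1 N, (x : ℝ) ^ (-(3 / 2 : ℝ)) *
        (2 * ∑' n : ℕ, (n : ℝ) ^ (-(5 / 4 : ℝ))) ^ 2 := Finset.sum_le_sum key
    _ = (∑ x ∈ Icc 1 N, (x : ℝ) ^ (-(3 / 2 : ℝ))) *
        (2 * ∑' n : ℕ, (n : ℝ) ^ (-(5 / 4 : ℝ))) ^ 2 := by rw [Finset.sum_mul]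
    _ ≤ (∑' n : ℕ, (n : ℝ) ^ (-(3 / 2 : ℝ))) *
        (2 * ∑' n : ℕ, (n : ℝ) ^ (-(5 / 4 : ℝ))) ^ 2 :=
        mul_le_mul_of_nonneg_right (hs.sum_le_tsum _ (fun n _ => hf n)) (by positivity)
    _ ≤ _ := by linarith

end Pool.Agent.W327.MWNEAR
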