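import Pool.Agent.W997.NL.Stm

set_option autoImplicit false

namespace Pool.Agent.W327.NLDEG

open Finset
open Pool.Agent.W997.SR (Dag)
open Pool.Agent.W997.NL

theorem card_un {Γ A B : Type} [DecidableEq A] (K : Finset Γ) (F : Finset B) (f : Γ → A)
    (g : B → A) (hK : K.card ≤ 2) (hF : F.card ≤ 2) (h : F.Nonempty → K = ∅) :
    (K.image f ∪ F.image g).card ≤ 2 := by
  rcases F.eq_empty_or_nonempty with h0 | h0
  · rw [h0, image_empty, union_empty]
    exact card_image_le.trans hK
  · rw [h h0, image_empty, empty_union]
    exact card_image_le.trans hF

theorem card_inj {I X : Type} [Fintype I] [DecidableEq X] (i : I → X)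
    (hi : Function.Injective i) (x : X) : (univ.filter (fun j => i j = x)).card ≤ 2 := by
  have h : (univ.filter (fun j => i j = x)).card ≤ 1 := by
    rw [card_le_one]
    intro a ha b hb
    exact hi ((mem_filter.1 ha).2.trans (mem_filter.1 hb).2.symm)
  omega

theorem card_inj2 {I X : Type} [Fintype I] [DecidableEq X] (i : I → X)
    (hi : Function.Injective i) (x : X) :
    (univ.filter (fun p : Bool × I => i p.2 = x)).card ≤ 2 := by
  have h : (univ.filter (fun p : Bool × I => i p.2 = x)).card ≤ (univ : Finset Bool).card := by
    refine card_le_card_of_injOn (fun p => p.1) (fun p _ => by simp) ?_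
    intro a ha b hb hab
    have h1 := (mem_filter.1 (mem_coe.1 ha)).2
    have h2 := (mem_filter.1 (mem_coe.1 hb)).2
    exact Prod.ext hab (hi (h1.trans h2.symm))
  simpa using h

theorem shift_aux (r : ℕ) (v : Fin (2 * r + 1) × Fin (2 ^ r)) :
    (shiftKid r v).card ≤ 2 ∧ (univ.filter (fun a => v ∈ shiftKid r a)).card ≤ 2 := by
  constructor
  · have h1 : (shiftKid r v).card ≤ ({v.2.val, if v.1.val ≤ r then v.2.val + 2 ^ (v.1.val - 1) else
        v.2.val - 2 ^ (2 * r - v.1.val)} : Finset ℕ).card := by
      refine card_le_card_of_injOn (fun c : Fin (2 * r + 1) × Fin (2 ^ r) => c.2.val) ?_ ?_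
      · intro c hc
        have h := (mem_filter.1 (mem_coe.1 hc)).2
        rw [mem_coe, mem_insert, mem_singleton]
        rcases h.2 with h2 | ⟨h2, h3⟩ | ⟨h2, h3⟩
        · left
          show c.2.val = _
          rw [h2]
        · right; rw [if_pos h2]; exact h3
        · right
          rw [if_neg (by omega)]
          show c.2.val = _
          omega
      · intro c hc c' hc' heq
        have h2 := (mem_filter.1 (mem_coe.1 hc)).2.1
        have h3 := (mem_filter.1 (mem_coe.1 hc')).2.1
        refine Prod.ext (Fin.ext (by omega)) (Fin.ext heq)
    exact h1.trans card_le_two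
  · have h1 : (univ.filter (fun a => v ∈ shiftKid r a)).card ≤
        ({v.2.val, if v.1.val + 1 ≤ r then v.2.val - 2 ^ (v.1.val) else
        v.2.val + 2 ^ (2 * r - (v.1.val + 1))} : Finset ℕ).card := by
      refine card_le_card_of_injOn (fun c : Fin (2 * r + 1) × Fin (2 ^ r) => c.2.val) ?_ ?_
      · intro c hc
        have h := (mem_filter.1 (mem_filter.1 (mem_coe.1 hc)).2).2
        rw [mem_coe, mem_insert, mem_singleton]
        have h0 : c.1.val = v.1.val + 1 := h.1.symm
        rcases h.2 with h2 | ⟨h2, h3⟩ | ⟨h2, h3⟩
        · left
          show c.2.val = _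
          rw [h2]
        · right
          rw [if_pos (by omega)]
          rw [h0, Nat.add_sub_cancel] at h3
          show c.2.val = _
          omega
        · right
          rw [if_neg (by omega)]
          rw [h0] at h3
          exact h3.symm
      · intro c hc c' hc' heq
        have h2 := (mem_filter.1 (mem_filter.1 (mem_coe.1 hc)).2).2.1
        have h3 := (mem_filter.1 (mem_filter.1 (mem_coe.1 hc')).2).2.1
        refine Prod.ext (Fin.ext (by omega)) (Fin.ext heq)
    exact h1.trans card_le_two

theorem shift_deg (r : ℕ) : (shift r).G.DegLe 2 := fun v => shift_aux r v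

theorem base_aux (I : Type) [Fintype I] [DecidableEq I] (S : IOG I) (hS : S.G.DegLe 2)
    (v : BCell I S.G.Γ) :
    (baseKid S v).card ≤ 2 ∧ (univ.filter (fun a => v ∈ baseKid S a)).card ≤ 2 := by
  constructor
  · cases v with
    | inp p => simp [baseKid]
    | mid x =>
      refine card_un _ _ _ _ (hS x).1 (card_inj S.inp S.inp_inj x) ?_
      rintro ⟨p, hp⟩
      rw [← (mem_filter.1 hp).2]
      exact S.inp_kid p
    | out p => exact card_le_two
  · cases v with
    | inp p =>
      refine (card_le_card (t := {.mid (S.inp p), .out p}) ?_).trans card_le_two
      intro a ha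
      have h := (mem_filter.1 ha).2
      cases a with
      | inp q => simp [baseKid] at h
      | mid x =>
        simp only [baseKid, mem_union, mem_image, mem_filter, mem_univ, true_and] at h
        rcases h with ⟨y, _, h2⟩ | ⟨q, h1, h2⟩
        · cases h2
        · cases h2
          rw [h1]
          exact mem_insert_self _ _
      | out q =>
        simp only [baseKid, mem_insert, mem_singleton] at h
        rcases h with h | h
        · cases h
        · cases h
          simp
    | mid x =>
      refine (card_le_card (t := (univ.filter (fun a => x ∈ S.G.kid a)).image .mid ∪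
        (univ.filter (fun p : I => S.out p = x)).image .out) ?_).trans
        (card_un _ _ _ _ (hS x).2 (card_inj S.out S.out_inj x) ?_)
      · intro a ha
        have h := (mem_filter.1 ha).2
        cases a with
        | inp q => simp [baseKid] at h
        | mid y =>
          simp only [baseKid, mem_union, mem_image, mem_filter, mem_univ, true_and] at h
          rcases h with ⟨z, h1, h2⟩ | ⟨q, h1, h2⟩
          · cases h2
            exact mem_union_left _ (mem_image_of_mem _ (mem_filter.2 ⟨mem_univ _, h1⟩))
          · cases h2
        | out q =>
          simp only [baseKid, mem_insert, mem_singleton] at h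
          rcases h with h | h
          · cases h
            exact mem_union_right _ (mem_image_of_mem _ (mem_filter.2 ⟨mem_univ _, rfl⟩))
          · cases h
      · rintro ⟨p, hp⟩
        rw [← (mem_filter.1 hp).2, filter_eq_empty_iff]
        intro a _
        exact S.out_top p a
    | out p =>
      have h : (univ.filter (fun a => BCell.out p ∈ baseKid S a)) = ∅ := by
        rw [filter_eq_empty_iff]
        intro a _ h
        cases a with
        | inp q => simp [baseKid] at h
        | mid y => simp [baseKid] at h
        | out q => simp [baseKid] at h
      rw [h]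
      simp

theorem base_deg (I : Type) [Fintype I] [DecidableEq I] (S : IOG I) (hS : S.G.DegLe 2) :
    (base S).G.DegLe 2 := fun v => base_aux I S hS v

theorem comp_aux (I : Type) [Fintype I] [DecidableEq I] (S G : IOG I) (hS : S.G.DegLe 2)
    (hG : G.G.DegLe 2) (v : Cell I S.G.Γ G.G.Γ) :
    (compKid S G v).card ≤ 2 ∧ (univ.filter (fun a => v ∈ compKid S G a)).card ≤ 2 := by
  constructor
  · cases v with
    | inp p => simp [compKid]
    | s1 x =>
      refine card_un _ _ _ _ (hS x).1 (card_inj2 S.inp S.inp_inj x) ?_
      rintro ⟨p, hp⟩
      rw [← (mem_filter.1 hp).2]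
      exact S.inp_kid p.2
    | g1 x =>
      refine card_un _ _ _ _ (hG x).1 (card_inj G.inp G.inp_inj x) ?_
      rintro ⟨p, hp⟩
      rw [← (mem_filter.1 hp).2]
      exact G.inp_kid p
    | g2 x =>
      refine card_un _ _ _ _ (hG x).1 (card_inj G.inp G.inp_inj x) ?_
      rintro ⟨p, hp⟩
      rw [← (mem_filter.1 hp).2]
      exact G.inp_kid p
    | s2 x =>
      refine card_un _ _ _ _ (hS x).1 (card_inj S.inp S.inp_inj x) ?_
      rintro ⟨p, hp⟩
      rw [← (mem_filter.1 hp).2]
      exact S.inp_kid p
    | out p => exact card_le_two
  · cases v with
    | inp p =>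
      refine (card_le_card (t := {.s1 (S.inp p.2), .out p}) ?_).trans card_le_two
      intro a ha
      have h := (mem_filter.1 ha).2
      cases a with
      | inp q => simp [compKid] at h
      | s1 x =>
        simp only [compKid, mem_union, mem_image, mem_filter, mem_univ, true_and] at h
        rcases h with ⟨y, _, h2⟩ | ⟨q, h1, h2⟩
        · cases h2
        · cases h2
          rw [h1]
          exact mem_insert_self _ _
      | g1 x => simp [compKid] at h
      | g2 x => simp [compKid] at h
      | s2 x => simp [compKid] at h
      | out q =>
        simp only [compKid, mem_insert, mem_singleton] at h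
        rcases h with h | h
        · cases h
        · cases h
          simp
    | s1 x =>
      refine (card_le_card (t := (univ.filter (fun a => x ∈ S.G.kid a)).image .s1 ∪
        (univ.filter (fun j : I => S.out j = x)).image (fun j => .g1 (G.inp j))) ?_).trans
        (card_un _ _ _ _ (hS x).2 (card_inj S.out S.out_inj x) ?_)
      · intro a ha
        have h := (mem_filter.1 ha).2
        cases a with
        | inp q => simp [compKid] at h
        | s1 y =>
          simp only [compKid, mem_union, mem_image, mem_filter, mem_univ, true_and] at h
          rcases h with ⟨z, h1, h2⟩ | ⟨q, h1, h2⟩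
          · cases h2
            exact mem_union_left _ (mem_image_of_mem _ (mem_filter.2 ⟨mem_univ _, h1⟩))
          · cases h2
        | g1 y =>
          simp only [compKid, mem_union, mem_image, mem_filter, mem_univ, true_and] at h
          rcases h with ⟨z, h1, h2⟩ | ⟨q, h1, h2⟩
          · cases h2
          · cases h2
            rw [← h1]
            exact mem_union_right _ (mem_image_of_mem (fun j => Cell.g1 (G.inp j))
              (mem_filter.2 ⟨mem_univ _, rfl⟩))
        | g2 y => simp [compKid] at h
        | s2 y => simp [compKid] at h
        | out q => simp [compKid] at h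
      · rintro ⟨p, hp⟩
        rw [← (mem_filter.1 hp).2, filter_eq_empty_iff]
        intro a _
        exact S.out_top p a
    | g1 x =>
      refine (card_le_card (t := (univ.filter (fun a => x ∈ G.G.kid a)).image .g1 ∪
        (univ.filter (fun j : I => G.out j = x)).image (fun j => .g2 (G.inp j))) ?_).trans
        (card_un _ _ _ _ (hG x).2 (card_inj G.out G.out_inj x) ?_)
      · intro a ha
        have h := (mem_filter.1 ha).2
        cases a with
        | inp q => simp [compKid] at h
        | s1 y => simp [compKid] at h
        | g1 y =>
          simp only [compKid, mem_union, mem_image, mem_filter, mem_univ, true_and] at h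
          rcases h with ⟨z, h1, h2⟩ | ⟨q, h1, h2⟩
          · cases h2
            exact mem_union_left _ (mem_image_of_mem _ (mem_filter.2 ⟨mem_univ _, h1⟩))
          · cases h2
        | g2 y =>
          simp only [compKid, mem_union, mem_image, mem_filter, mem_univ, true_and] at h
          rcases h with ⟨z, h1, h2⟩ | ⟨q, h1, h2⟩
          · cases h2
          · cases h2
            rw [← h1]
            exact mem_union_right _ (mem_image_of_mem (fun j => Cell.g2 (G.inp j))
              (mem_filter.2 ⟨mem_univ _, rfl⟩))
        | s2 y => simp [compKid] at h
        | out q => simp [compKid] at h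
      · rintro ⟨p, hp⟩
        rw [← (mem_filter.1 hp).2, filter_eq_empty_iff]
        intro a _
        exact G.out_top p a
    | g2 x =>
      refine (card_le_card (t := (univ.filter (fun a => x ∈ G.G.kid a)).image .g2 ∪
        (univ.filter (fun j : I => G.out j = x)).image (fun j => .s2 (S.inp j))) ?_).trans
        (card_un _ _ _ _ (hG x).2 (card_inj G.out G.out_inj x) ?_)
      · intro a ha
        have h := (mem_filter.1 ha).2
        cases a with
        | inp q => simp [compKid] at h
        | s1 y => simp [compKid] at h
        | g1 y => simp [compKid] at h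
        | g2 y =>
          simp only [compKid, mem_union, mem_image, mem_filter, mem_univ, true_and] at h
          rcases h with ⟨z, h1, h2⟩ | ⟨q, h1, h2⟩
          · cases h2
            exact mem_union_left _ (mem_image_of_mem _ (mem_filter.2 ⟨mem_univ _, h1⟩))
          · cases h2
        | s2 y =>
          simp only [compKid, mem_union, mem_image, mem_filter, mem_univ, true_and] at h
          rcases h with ⟨z, h1, h2⟩ | ⟨q, h1, h2⟩
          · cases h2
          · cases h2
            rw [← h1]
            exact mem_union_right _ (mem_image_of_mem (fun j => Cell.s2 (S.inp j))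
              (mem_filter.2 ⟨mem_univ _, rfl⟩))
        | out q => simp [compKid] at h
      · rintro ⟨p, hp⟩
        rw [← (mem_filter.1 hp).2, filter_eq_empty_iff]
        intro a _
        exact G.out_top p a
    | s2 x =>
      refine (card_le_card (t := (univ.filter (fun a => x ∈ S.G.kid a)).image .s2 ∪
        (univ.filter (fun p : Bool × I => S.out p.2 = x)).image .out) ?_).trans
        (card_un _ _ _ _ (hS x).2 (card_inj2 S.out S.out_inj x) ?_)
      · intro a ha
        have h := (mem_filter.1 ha).2
        cases a with
        | inp q => simp [compKid] at h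
        | s1 y => simp [compKid] at h
        | g1 y => simp [compKid] at h
        | g2 y => simp [compKid] at h
        | s2 y =>
          simp only [compKid, mem_union, mem_image, mem_filter, mem_univ, true_and] at h
          rcases h with ⟨z, h1, h2⟩ | ⟨q, h1, h2⟩
          · cases h2
            exact mem_union_left _ (mem_image_of_mem _ (mem_filter.2 ⟨mem_univ _, h1⟩))
          · cases h2
        | out q =>
          simp only [compKid, mem_insert, mem_singleton] at h
          rcases h with h | h
          · cases h
            exact mem_union_right _ (mem_image_of_mem _ (mem_filter.2 ⟨mem_univ _, rfl⟩))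
          · cases h
      · rintro ⟨p, hp⟩
        rw [← (mem_filter.1 hp).2, filter_eq_empty_iff]
        intro a _
        exact S.out_top p.2 a
    | out p =>
      have h : (univ.filter (fun a => Cell.out p ∈ compKid S G a)) = ∅ := by
        rw [filter_eq_empty_iff]
        intro a _ h
        cases a <;> simp [compKid] at h
      rw [h]
      simp

theorem comp_deg (I : Type) [Fintype I] [DecidableEq I] (S G : IOG I) (hS : S.G.DegLe 2)
    (hG : G.G.DegLe 2) : (comp S G).G.DegLe 2 := fun v => comp_aux I S G hS hG v

theorem main : S_DEG := ⟨shift_deg, base_deg, comp_deg⟩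

end Pool.Agent.W327.NLDEG
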