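import Mathlib
import Pool.Agent.Results.MP_4ffd61_al.Uncomputable

set_option autoImplicit false

namespace Pool.Agent.W327.Hdim

open Equiv Pool.Agent.Helper501.Hdc.Official

/-- the table of an automaton -/
def tb (A : Automaton) : List (List (ℕ × ℕ)) :=
  List.ofFn fun q => List.ofFn fun x => ((A.next q x : ℕ), (A.out q x : ℕ))

/-- the action of the state `q` of a table on words of natural numbers -/
def stp (tab : List (List (ℕ × ℕ))) (q : ℕ) (w : List ℕ) : List ℕ :=
  List.foldr (fun (x : ℕ) (ih : ℕ → List ℕ) (p : ℕ) =>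
      ((tab.getD p []).getD x (0, 0)).2 :: ih ((tab.getD p []).getD x (0, 0)).1)
    (fun _ : ℕ => ([] : List ℕ)) w q

theorem tb_get (A : Automaton) (q : Fin A.s) (x : Fin A.m) :
    (((tb A).getD q []).getD x (0, 0)) = ((A.next q x : ℕ), (A.out q x : ℕ)) := by
  have h1 : (tb A).getD q [] = List.ofFn fun x => ((A.next q x : ℕ), (A.out q x : ℕ)) := by
    have hl : (q : ℕ) < (tb A).length := by simp [tb]
    rw [List.getD_eq_getElem _ _ hl]
    simp [tb]
  rw [h1]
  have hl : (x : ℕ) < (List.ofFn fun x => ((A.next q x : ℕ), (A.out q x : ℕ))).length := by simp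
  rw [List.getD_eq_getElem _ _ hl]
  simp

theorem stp_tb (A : Automaton) (q : Fin A.s) (w : List (Fin A.m)) :
    stp (tb A) q (w.map Fin.val) = (A.act q w).map Fin.val := by
  induction w generalizing q with
  | nil => rfl
  | cons x w ih =>
    have h := tb_get A q x
    have e : stp (tb A) q ((x :: w).map Fin.val) =
        (((tb A).getD q []).getD x (0, 0)).2 ::
          stp (tb A) (((tb A).getD q []).getD x (0, 0)).1 (w.map Fin.val) := rfl
    rw [e, h, ih]
    rfl

/-- the generating set in the frozen statement -/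
def gens (tab : List (List (ℕ × ℕ))) : Set (Function.End (List ℕ)) :=
  {g | ∃ q < tab.length, ∀ w : List ℕ, g w = stp tab q w}

theorem mono_to (A : Automaton) (g : Function.End (List ℕ)) (hg : g ∈ Submonoid.closure (gens (tb A))) :
    ∃ p ∈ Submonoid.closure (Set.range A.perm), ∀ w : List (Fin A.m),
      g (w.map Fin.val) = (p w).map Fin.val := by
  induction hg using Submonoid.closure_induction with
  | mem g hg =>
    obtain ⟨q, hq, h⟩ := hg
    have hq' : q < A.s := by simpa [tb] using hq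
    refine ⟨A.perm ⟨q, hq'⟩, Submonoid.subset_closure ⟨_, rfl⟩, fun w => ?_⟩
    rw [h]
    exact stp_tb A ⟨q, hq'⟩ w
  | one => exact ⟨1, one_mem _, fun w => rfl⟩
  | mul a b _ _ ha hb =>
    obtain ⟨p, hp, h1⟩ := ha
    obtain ⟨p', hp', h2⟩ := hb
    refine ⟨p * p', mul_mem hp hp', fun w => ?_⟩
    show a (b (w.map Fin.val)) = _
    rw [h2, h1]
    rfl

theorem mono_from (A : Automaton) (p : Perm (List (Fin A.m)))
    (hp : p ∈ Submonoid.closure (Set.range A.perm)) :
    ∃ g ∈ Submonoid.closure (gens (tb A)), ∀ w : List (Fin A.m),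
      g (w.map Fin.val) = (p w).map Fin.val := by
  induction hp using Submonoid.closure_induction with
  | mem g hg =>
    obtain ⟨q, rfl⟩ := hg
    refine ⟨fun w => stp (tb A) q w, Submonoid.subset_closure ⟨q, ?_, fun _ => rfl⟩, fun w => ?_⟩
    · simp [tb]
    · exact stp_tb A q w
  | one => exact ⟨1, one_mem _, fun w => rfl⟩
  | mul a b _ _ ha hb =>
    obtain ⟨p, hp, h1⟩ := ha
    obtain ⟨p', hp', h2⟩ := hb
    refine ⟨p * p', mul_mem hp hp', fun w => ?_⟩
    show p (p' (w.map Fin.val)) = _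
    rw [h2, h1]
    rfl

theorem closure_sub_group (A : Automaton) {p : Perm (List (Fin A.m))}
    (hp : p ∈ Submonoid.closure (Set.range A.perm)) : p ∈ A.group := by
  have : Submonoid.closure (Set.range A.perm) ≤ A.group.toSubmonoid := by
    rw [Submonoid.closure_le]
    exact Subgroup.subset_closure
  exact this hp

theorem group_level (A : Automaton) (n : ℕ) (g : Perm (List (Fin A.m))) (hg : g ∈ A.group) :
    ∃ p ∈ Submonoid.closure (Set.range A.perm), ∀ w : List (Fin A.m), w.length = n → p w = g w := by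
  have hlen : ∀ g ∈ A.group, ∀ w, (g w).length = w.length := fun g hg w =>
    (Pool.Agent.Results.MP_4ffd61_al.Uncomputable.group_sub A hg).1 w
  unfold Automaton.group at hg
  induction hg using Subgroup.closure_induction with
  | mem g hg => exact ⟨g, Submonoid.subset_closure hg, fun _ _ => rfl⟩
  | one => exact ⟨1, one_mem _, fun _ _ => rfl⟩
  | mul a b ha hb iha ihb =>
    obtain ⟨p, hp, h1⟩ := iha
    obtain ⟨p', hp', h2⟩ := ihb
    refine ⟨p * p', mul_mem hp hp', fun w hw => ?_⟩
    rw [Perm.mul_apply, h2 w hw, h1 _ (by rw [hlen b hb, hw])]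
    rfl
  | inv a ha iha =>
    obtain ⟨p, hp, h1⟩ := iha
    have hpl := hlen p (closure_sub_group A hp)
    have hpp : ∀ w : List (Fin A.m), (p w).length = n ↔ w.length = n := fun w => by rw [hpl]
    have : Finite {w : List (Fin A.m) // w.length = n} := List.finite_length_eq _ _
    set P : Perm {w : List (Fin A.m) // w.length = n} := p.subtypePerm hpp with hP
    have hord : P ^ orderOf P = 1 := pow_orderOf_eq_one P
    have hpos : 0 < orderOf P := orderOf_pos P
    have hpw : ∀ (k : ℕ) (w : {w : List (Fin A.m) // w.length = n}), ((P ^ k) w : List (Fin A.m)) = (p ^ k) w := by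
      intro k
      induction k with
      | zero => intro w; rfl
      | succ k ih =>
        intro w
        rw [pow_succ, pow_succ, Perm.mul_apply, Perm.mul_apply, ih]
        rfl
    have hfix : ∀ w : List (Fin A.m), w.length = n → (p ^ orderOf P) w = w := by
      intro w hw
      have := hpw (orderOf P) ⟨w, hw⟩
      rw [hord] at this
      exact this.symm
    refine ⟨p ^ (orderOf P - 1), pow_mem hp _, fun w hw => ?_⟩
    have hl2 : ((p ^ (orderOf P - 1)) w).length = n := by
      rw [hlen _ (pow_mem (closure_sub_group A hp) _), hw]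
    have h3 : a ((p ^ (orderOf P - 1)) w) = w := by
      rw [← h1 _ hl2, ← Perm.mul_apply, ← pow_succ', Nat.sub_add_cancel hpos, hfix w hw]
    rw [Perm.eq_inv_iff_eq]
    exact h3

/-- restriction to the words of length at most `n` -/
def R {m : ℕ} (n : ℕ) (g : Perm (List (Fin m))) (w : {w : List (Fin m) // w.length ≤ n}) : List (Fin m) :=
  g w.1

theorem R_closure (A : Automaton) (n : ℕ) :
    R n '' (treeClosure A.group) = R n '' (A.group : Set (Perm (List (Fin A.m)))) := by
  ext h
  constructor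
  · rintro ⟨g, hg, rfl⟩
    obtain ⟨g', hg', e⟩ := hg.2 n
    exact ⟨g', hg', funext fun w => (e w.1 w.2).symm⟩
  · rintro ⟨g, hg, rfl⟩
    exact ⟨g, ⟨Pool.Agent.Results.MP_4ffd61_al.Uncomputable.group_sub A hg, fun _ => ⟨g, hg, fun _ _ => rfl⟩⟩, rfl⟩

/-- words of natural numbers as words of letters -/
def toF {m : ℕ} (w : List ℕ) (h : ∀ x ∈ w, x < m) : List (Fin m) :=
  w.pmap (fun x hx => (⟨x, hx⟩ : Fin m)) h

theorem toF_length {m : ℕ} (w : List ℕ) (h : ∀ x ∈ w, x < m) : (toF w h).length = w.length :=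
  List.length_pmap

theorem toF_map {m : ℕ} (w : List ℕ) (h : ∀ x ∈ w, x < m) : (toF w h).map Fin.val = w := by
  induction w with
  | nil => rfl
  | cons x w ih =>
    have := ih (fun y hy => h y (List.mem_cons_of_mem _ hy))
    simp only [toF, List.pmap, List.map_cons]
    congr 1

theorem map_toF {m : ℕ} (w : List (Fin m)) (h : ∀ x ∈ w.map Fin.val, x < m) :
    toF (w.map Fin.val) h = w := by
  have h1 := toF_map (w.map Fin.val) h
  exact List.map_injective_iff.2 Fin.val_injective h1

/-- the change of the form of the restriction -/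
def Ph {m : ℕ} (n : ℕ) (h : {w : List (Fin m) // w.length ≤ n} → List (Fin m))
    (w : {w : List ℕ // w.length = n ∧ ∀ x ∈ w, x < m}) : List ℕ :=
  (h ⟨toF w.1 w.2.2, by rw [toF_length, w.2.1]⟩).map Fin.val

theorem set_eq (A : Automaton) (n : ℕ) :
    {h : {w : List ℕ // w.length = n ∧ ∀ x ∈ w, x < A.m} → List ℕ |
      ∃ g ∈ Submonoid.closure (gens (tb A)), ∀ w, h w = g w.1} =
    Ph n '' (R n '' (A.group : Set (Perm (List (Fin A.m))))) := by
  ext h
  constructor
  · rintro ⟨g, hg, hh⟩
    obtain ⟨p, hp, e⟩ := mono_to A g hg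
    refine ⟨R n p, ⟨p, closure_sub_group A hp, rfl⟩, ?_⟩
    funext w
    rw [hh w]
    have := e (toF w.1 w.2.2)
    rw [toF_map] at this
    exact this.symm
  · rintro ⟨_, ⟨g, hg, rfl⟩, rfl⟩
    obtain ⟨p, hp, e⟩ := group_level A n g hg
    obtain ⟨g', hg', e'⟩ := mono_from A p hp
    refine ⟨g', hg', fun w => ?_⟩
    have := e' (toF w.1 w.2.2)
    rw [toF_map] at this
    rw [this, e _ (by rw [toF_length, w.2.1])]
    rfl

theorem injOn (A : Automaton) (n : ℕ) :
    Set.InjOn (Ph n) (R n '' (A.group : Set (Perm (List (Fin A.m))))) := by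
  rintro _ ⟨g, hg, rfl⟩ _ ⟨g', hg', rfl⟩ h
  have hg1 := Pool.Agent.Results.MP_4ffd61_al.Uncomputable.group_sub A hg
  have hg2 := Pool.Agent.Results.MP_4ffd61_al.Uncomputable.group_sub A hg'
  have key : ∀ w : List (Fin A.m), w.length = n → g w = g' w := by
    intro w hw
    have hb : ∀ x ∈ w.map Fin.val, x < A.m := by
      intro x hx
      obtain ⟨y, _, rfl⟩ := List.mem_map.1 hx
      exact y.2
    have h1 := congrFun h ⟨w.map Fin.val, by simpa using hw, hb⟩
    unfold Ph R at h1
    have h2 := List.map_injective_iff.2 Fin.val_injective h1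
    simpa only [map_toF] using h2
  funext w
  obtain ⟨w, hw⟩ := w
  show g w = g' w
  have h0 : 0 < A.m := lt_of_lt_of_le (by norm_num) A.two_le
  set v : List (Fin A.m) := w ++ List.replicate (n - w.length) ⟨0, h0⟩ with hv
  have hvl : v.length = n := by
    rw [hv, List.length_append, List.length_replicate]; omega
  have hpre : w <+: v := List.prefix_append _ _
  have h1 := hg1.2 _ _ hpre
  have h2 := hg2.2 _ _ hpre
  rw [← key v hvl] at h2
  have hl : (g w).length = (g' w).length := by rw [hg1.1, hg2.1]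
  exact (List.prefix_of_prefix_length_le h1 h2 hl.le).eq_of_length hl

theorem card_eq (A : Automaton) (n : ℕ) :
    Set.ncard {h : {w : List ℕ // w.length = n ∧ ∀ x ∈ w, x < A.m} → List ℕ |
      ∃ g ∈ Submonoid.closure (gens (tb A)), ∀ w, h w = g w.1} =
    levelCard n (treeClosure A.group) := by
  rw [set_eq, (injOn A n).ncard_image, ← R_closure]
  rfl

theorem den_eq (m : ℕ) (hm : 2 ≤ m) (n : ℕ) :
    Real.log (levelCard n (treeAut m)) =
      (((m : ℝ) ^ n - 1) / ((m : ℝ) - 1)) * Real.log ((m.factorial : ℕ) : ℝ) := by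
  rw [Pool.Agent.Results.MP_4ffd61_al.Uncomputable.levelCard_treeAut m hm n]
  push_cast
  rw [Real.log_pow]
  congr 1
  rw [← Nat.geomSum_eq hm]
  have hm1 : (m : ℝ) ≠ 1 := by
    have : m ≠ 1 := by omega
    exact_mod_cast this
  rw [← geom_sum_eq hm1]
  push_cast
  rfl

theorem dim_eq (A : Automaton) :
    Filter.liminf (fun n : ℕ =>
      Real.log ((Set.ncard {h : {w : List ℕ // w.length = n ∧ ∀ x ∈ w, x < A.m} → List ℕ |
      ∃ g ∈ Submonoid.closure (gens (tb A)), ∀ w, h w = g w.1} : ℕ) : ℝ) /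
      ((((A.m : ℝ) ^ n - 1) / ((A.m : ℝ) - 1)) * Real.log ((A.m.factorial : ℕ) : ℝ))) Filter.atTop
    = hdim (treeClosure A.group) := by
  unfold hdim
  congr 1
  funext n
  rw [card_eq, den_eq A.m A.two_le]

theorem ofNat_primrec : Primrec (fun n : ℕ => (n : ℤ)) := by
  rw [← Primrec.encode_iff]
  have : (fun n : ℕ => Encodable.encode (n : ℤ)) = fun n : ℕ => 2 * n := rfl
  rw [this]
  exact Primrec.nat_mul.comp (Primrec.const 2) Primrec.id

theorem no_alg :
    ¬ (∃ f : ℕ × List (List (ℕ × ℕ)) × ℕ → ℕ × ℕ, Computable f ∧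
    ∀ (m : ℕ) (tab : List (List (ℕ × ℕ))) (k : ℕ),
      2 ≤ m →
      (∀ row ∈ tab, row.length = m ∧ (∀ e ∈ row, e.1 < tab.length ∧ e.2 < m) ∧
          (row.map Prod.snd).Nodup) →
      1 ≤ k →
      |((f (m, tab, k)).1 : ℝ) / (((f (m, tab, k)).2 : ℝ) + 1) -
        Filter.liminf (fun n : ℕ =>
          Real.log ((Set.ncard {h : {w : List ℕ // w.length = n ∧ ∀ x ∈ w, x < m} → List ℕ |
            ∃ g ∈ Submonoid.closure {g : Function.End (List ℕ) | ∃ q < tab.length, ∀ w : List ℕ,
                g w = List.foldr (fun (x : ℕ) (ih : ℕ → List ℕ) (p : ℕ) =>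
                    ((tab.getD p []).getD x (0, 0)).2 :: ih ((tab.getD p []).getD x (0, 0)).1)
                  (fun _ : ℕ => ([] : List ℕ)) w q},
              ∀ w, h w = g w.1} : ℕ) : ℝ) /
          ((((m : ℝ) ^ n - 1) / ((m : ℝ) - 1)) * Real.log ((m.factorial : ℕ) : ℝ)))
          Filter.atTop| ≤ (2 : ℝ)⁻¹ ^ k) := by
  rintro ⟨f, hf, hP⟩
  obtain ⟨m, k, hk, H⟩ := Pool.Agent.Results.MP_4ffd61_al.Uncomputable.result
  let h : (ℕ × ℕ × List (List (ℕ × ℕ))) × ℕ → ℤ × ℕ := fun p =>
    (((f (p.1.1, p.1.2.2, p.2)).1 : ℤ), (f (p.1.1, p.1.2.2, p.2)).2 + 1)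
  have hc : Computable h := by
    have h1 : Computable (fun p : (ℕ × ℕ × List (List (ℕ × ℕ))) × ℕ => f (p.1.1, p.1.2.2, p.2)) := by
      refine hf.comp ?_
      exact Computable.pair (Computable.fst.comp Computable.fst)
        (Computable.pair (Computable.snd.comp (Computable.snd.comp Computable.fst)) Computable.snd)
    exact Computable.pair (ofNat_primrec.to_comp.comp (Computable.fst.comp h1))
      (Computable.succ.comp (Computable.snd.comp h1))
  obtain ⟨A, rfl, hA⟩ := H (fun p => Part.some (h p)) hc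
  apply hA
  refine ⟨h (A.tables, k), Part.mem_some _, ?_⟩
  have h2 := hP A.m (tb A) k A.two_le ?_ hk
  · have h3 := dim_eq A
    unfold gens stp at h3
    rw [h3] at h2
    have e : (h (A.tables, k)) = (((f (A.m, tb A, k)).1 : ℤ), (f (A.m, tb A, k)).2 + 1) := rfl
    rw [e]
    push_cast
    rw [one_div]
    exact h2
  · intro row hrow
    rw [tb, List.mem_ofFn] at hrow
    obtain ⟨q, rfl⟩ := hrow
    refine ⟨by simp, ?_, ?_⟩
    · intro e he
      rw [List.mem_ofFn] at he
      obtain ⟨x, rfl⟩ := he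
      refine ⟨?_, (A.out q x).2⟩
      simp [tb]
    · rw [List.map_ofFn]
      rw [List.nodup_ofFn]
      intro x y hxy
      exact (A.out q).injective (Fin.val_injective hxy)

end Pool.Agent.W327.Hdim
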