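import Mathlib

set_option autoImplicit false

namespace Pool.Agent.W327.TIG

open Topology

/-- Jordan: a subgroup of a finite group meeting all conjugacy classes is everything. -/
theorem jordan (Q : Type) [Group Q] [Finite Q] (K : Subgroup Q)
    (h : ∀ x : Q, ∃ g : Q, g * x * g⁻¹ ∈ K) : K = ⊤ := by
  classical
  have : Fintype Q := Fintype.ofFinite Q
  have : Fintype (Q ⧸ K) := Fintype.ofFinite _
  have hfin : Fintype (MulAction.orbitRel.Quotient Q (Q ⧸ K)) := Fintype.ofFinite _
  have hB := MulAction.sum_card_fixedBy_eq_card_orbits_mul_card_group (G := Q) (X := Q ⧸ K)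
  have hone : Fintype.card (MulAction.orbitRel.Quotient Q (Q ⧸ K)) = 1 := by
    rw [Fintype.card_eq_one_iff]
    refine ⟨Quotient.mk'' (QuotientGroup.mk 1), fun y => ?_⟩
    induction y using Quotient.inductionOn' with
    | h y =>
      apply Quotient.sound'
      obtain ⟨g, hg⟩ := MulAction.exists_smul_eq Q (QuotientGroup.mk 1 : Q ⧸ K) y
      exact ⟨g, hg⟩
  rw [hone, one_mul] at hB
  have hfix : ∀ x : Q, 1 ≤ Fintype.card (MulAction.fixedBy (Q ⧸ K) x) := by
    intro x
    obtain ⟨g, hg⟩ := h x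
    have : Nonempty (MulAction.fixedBy (Q ⧸ K) x) := by
      refine ⟨⟨QuotientGroup.mk g⁻¹, ?_⟩⟩
      show x • (QuotientGroup.mk g⁻¹ : Q ⧸ K) = QuotientGroup.mk g⁻¹
      rw [MulAction.Quotient.smul_mk, QuotientGroup.eq]
      have e : (x • g⁻¹)⁻¹ * g⁻¹ = (g * x * g⁻¹)⁻¹ := by
        simp [mul_assoc]
      rw [e]
      exact K.inv_mem hg
    exact Fintype.card_pos
  have hfix1 : Fintype.card (MulAction.fixedBy (Q ⧸ K) (1 : Q)) = Fintype.card (Q ⧸ K) := by
    apply Fintype.card_congr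
    refine ⟨fun y => y.1, fun y => ⟨y, ?_⟩, fun _ => rfl, fun _ => rfl⟩
    exact one_smul _ _
  have hsum : ∑ x : Q, Fintype.card (MulAction.fixedBy (Q ⧸ K) x) ≥
      Fintype.card (Q ⧸ K) + (Fintype.card Q - 1) := by
    rw [← Finset.add_sum_erase Finset.univ _ (Finset.mem_univ (1 : Q)), hfix1]
    have : Fintype.card Q - 1 = ∑ x ∈ Finset.univ.erase (1 : Q), 1 := by
      rw [Finset.sum_const, Finset.card_erase_of_mem (Finset.mem_univ _), Finset.card_univ]
      simp
    rw [this]
    gcongr with x _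
    exact hfix x
  rw [hB] at hsum
  have hQ : 0 < Fintype.card Q := Fintype.card_pos
  have hle : Fintype.card (Q ⧸ K) ≤ 1 := by omega
  have hsub : Subsingleton (Q ⧸ K) := Fintype.card_le_one_iff_subsingleton.1 hle
  rw [eq_top_iff]
  intro x _
  have := hsub.elim (QuotientGroup.mk 1 : Q ⧸ K) (QuotientGroup.mk x)
  rw [QuotientGroup.eq] at this
  simpa using this

/-- A closed subgroup of a profinite group meeting all conjugacy classes is everything. -/
theorem profinite (Q : Type) [Group Q] [TopologicalSpace Q] [IsTopologicalGroup Q] [CompactSpace Q]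
    [TotallyDisconnectedSpace Q] (K : Subgroup Q) (hK : IsClosed (K : Set Q))
    (h : ∀ x : Q, ∃ g : Q, g * x * g⁻¹ ∈ K) : K = ⊤ := by
  rw [eq_top_iff]
  intro q _
  by_contra hq
  have hopen : IsOpen {u : Q | q * u ∉ K} :=
    (hK.preimage (continuous_const_mul q)).isOpen_compl
  obtain ⟨U, hU⟩ := ProfiniteGrp.exist_openNormalSubgroup_sub_open_nhds_of_one hopen
    (by simpa using hq)
  have hfin : Finite (Q ⧸ U.toSubgroup) := Subgroup.quotient_finite_of_isOpen _ U.isOpen
  have hj := jordan (Q ⧸ U.toSubgroup) (K.map (QuotientGroup.mk' U.toSubgroup)) (by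
    intro x
    obtain ⟨y, rfl⟩ := QuotientGroup.mk'_surjective _ x
    obtain ⟨g, hg⟩ := h y
    exact ⟨QuotientGroup.mk' _ g, ⟨_, hg, by simp⟩⟩)
  have hmem : QuotientGroup.mk' U.toSubgroup q ∈ K.map (QuotientGroup.mk' U.toSubgroup) := by
    rw [hj]; trivial
  obtain ⟨k, hk, hkq⟩ := hmem
  have h1 : (QuotientGroup.mk q : Q ⧸ U.toSubgroup) = QuotientGroup.mk k := hkq.symm
  rw [QuotientGroup.eq] at h1
  have h2 := hU h1
  apply h2
  simpa using hk

/-- the easy direction -/
theorem easy (G : Type) [Group G] [TopologicalSpace G] [IsTopologicalGroup G] [CompactSpace G]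
    [T2Space G] (N : Subgroup G) [hN : N.Normal] (hNc : IsClosed (N : Set G))
    (hab : ∀ a ∈ N, ∀ b ∈ N, a * b = b * a) (htd : TotallyDisconnectedSpace (G ⧸ N))
    (H : Subgroup G) (hH : IsClosed (H : Set G)) (h : ∀ x : G, ∃ g : G, g * x * g⁻¹ ∈ H) :
    H = ⊤ := by
  have hcomp : IsCompact (H : Set G) := hH.isCompact
  have hHN : H.map (QuotientGroup.mk' N) = ⊤ := by
    apply profinite
    · have hN' : IsClosed (N : Set G) := hNc
      have : T2Space (G ⧸ N) := by
        have := hNc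
        infer_instance
      have himg : IsCompact ((QuotientGroup.mk' N) '' (H : Set G)) :=
        hcomp.image (continuous_quot_mk)
      exact himg.isClosed
    · intro x
      obtain ⟨y, rfl⟩ := QuotientGroup.mk'_surjective _ x
      obtain ⟨g, hg⟩ := h y
      exact ⟨QuotientGroup.mk' _ g, ⟨_, hg, by simp⟩⟩
  have hdec : ∀ x : G, ∃ y ∈ H, ∃ n ∈ N, x = y * n := by
    intro x
    have hmem : QuotientGroup.mk' N x ∈ H.map (QuotientGroup.mk' N) := by rw [hHN]; trivial
    obtain ⟨k, hk, hkq⟩ := hmem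
    have h1 : (QuotientGroup.mk k : G ⧸ N) = QuotientGroup.mk x := hkq
    rw [QuotientGroup.eq] at h1
    exact ⟨k, hk, k⁻¹ * x, h1, by group⟩
  have hNH : N ≤ H := by
    intro a ha
    obtain ⟨g, hg⟩ := h a
    obtain ⟨y, hy, n, hn, rfl⟩ := hdec g
    have e : y * n * a * (y * n)⁻¹ = y * a * y⁻¹ := by
      have : n * a * n⁻¹ = a := by rw [hab n hn a ha]; group
      calc y * n * a * (y * n)⁻¹ = y * (n * a * n⁻¹) * y⁻¹ := by group
        _ = y * a * y⁻¹ := by rw [this]
    rw [e] at hg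
    have := H.mul_mem (H.mul_mem (H.inv_mem hy) hg) hy
    simpa [mul_assoc] using this
  rw [eq_top_iff]
  intro x _
  obtain ⟨y, hy, n, hn, rfl⟩ := hdec x
  exact H.mul_mem hy (hNH hn)

end Pool.Agent.W327.TIG
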