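import Mathlib
import Pool.Agent.Helper472.Lat_CST1
import Pool.Agent.Helper472.Lat_CST2
import Pool.Agent.Helper472.Lat_TTL

set_option autoImplicit false

namespace Pool.Agent.W327.TIG

open Pool.LatH472 Matrix

variable {ι : Type} [Fintype ι] [DecidableEq ι]

/-- conjugation by a unitary matrix -/
def cj (u : Matrix.unitaryGroup ι ℂ) (X : Matrix ι ι ℂ) : Matrix ι ι ℂ :=
  (u : Matrix ι ι ℂ) * X * ((u⁻¹ : Matrix.unitaryGroup ι ℂ) : Matrix ι ι ℂ)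

theorem u_inv (u : Matrix.unitaryGroup ι ℂ) :
    (u : Matrix ι ι ℂ) * ((u⁻¹ : Matrix.unitaryGroup ι ℂ) : Matrix ι ι ℂ) = 1 :=
  congrArg Subtype.val (mul_inv_cancel u)

theorem inv_u (u : Matrix.unitaryGroup ι ℂ) :
    ((u⁻¹ : Matrix.unitaryGroup ι ℂ) : Matrix ι ι ℂ) * (u : Matrix ι ι ℂ) = 1 :=
  congrArg Subtype.val (inv_mul_cancel u)

theorem cj_one (X : Matrix ι ι ℂ) : cj 1 X = X := by simp [cj]

theorem cj_mul (u v : Matrix.unitaryGroup ι ℂ) (X : Matrix ι ι ℂ) : cj (u * v) X = cj u (cj v X) := by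
  unfold cj
  rw [_root_.mul_inv_rev]
  show ((u : Matrix ι ι ℂ) * (v : Matrix ι ι ℂ)) * X *
    (((v⁻¹ : Matrix.unitaryGroup ι ℂ) : Matrix ι ι ℂ) * ((u⁻¹ : Matrix.unitaryGroup ι ℂ) : Matrix ι ι ℂ)) = _
  simp only [Matrix.mul_assoc]

theorem cj_inv_cj (u : Matrix.unitaryGroup ι ℂ) (X : Matrix ι ι ℂ) : cj u⁻¹ (cj u X) = X := by
  rw [← cj_mul, inv_mul_cancel, cj_one]

theorem cj_cj_inv (u : Matrix.unitaryGroup ι ℂ) (X : Matrix ι ι ℂ) : cj u (cj u⁻¹ X) = X := by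
  rw [← cj_mul, mul_inv_cancel, cj_one]

theorem cj_prod (u : Matrix.unitaryGroup ι ℂ) (X Y : Matrix ι ι ℂ) : cj u (X * Y) = cj u X * cj u Y := by
  unfold cj
  calc (u : Matrix ι ι ℂ) * (X * Y) * ((u⁻¹ : Matrix.unitaryGroup ι ℂ) : Matrix ι ι ℂ)
      = (u : Matrix ι ι ℂ) * X * 1 * Y * ((u⁻¹ : Matrix.unitaryGroup ι ℂ) : Matrix ι ι ℂ) := by
        simp only [Matrix.mul_assoc, Matrix.one_mul]
    _ = (u : Matrix ι ι ℂ) * X * (((u⁻¹ : Matrix.unitaryGroup ι ℂ) : Matrix ι ι ℂ) * (u : Matrix ι ι ℂ))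
        * Y * ((u⁻¹ : Matrix.unitaryGroup ι ℂ) : Matrix ι ι ℂ) := by rw [inv_u]
    _ = _ := by simp only [Matrix.mul_assoc]

theorem cj_smul (u : Matrix.unitaryGroup ι ℂ) (t : ℝ) (X : Matrix ι ι ℂ) : cj u (t • X) = t • cj u X := by
  unfold cj
  rw [Matrix.mul_smul, Matrix.smul_mul]

theorem cj_add (u : Matrix.unitaryGroup ι ℂ) (X Y : Matrix ι ι ℂ) : cj u (X + Y) = cj u X + cj u Y := by
  unfold cj
  rw [Matrix.mul_add, Matrix.add_mul]

theorem cj_sub (u : Matrix.unitaryGroup ι ℂ) (X Y : Matrix ι ι ℂ) : cj u (X - Y) = cj u X - cj u Y := by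
  unfold cj
  rw [Matrix.mul_sub, Matrix.sub_mul]

theorem cj_exp (u : Matrix.unitaryGroup ι ℂ) (X : Matrix ι ι ℂ) :
    NormedSpace.exp (cj u X) = cj u (NormedSpace.exp X) := by
  let U : (Matrix ι ι ℂ)ˣ := ⟨(u : Matrix ι ι ℂ), ((u⁻¹ : Matrix.unitaryGroup ι ℂ) : Matrix ι ι ℂ),
    u_inv u, inv_u u⟩
  exact Matrix.exp_units_conj U X

theorem cj_eq_self_iff (u : Matrix.unitaryGroup ι ℂ) (X : Matrix ι ι ℂ) :
    cj u X = X ↔ (u : Matrix ι ι ℂ) * X = X * (u : Matrix ι ι ℂ) := by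
  unfold cj
  constructor
  · intro h
    calc (u : Matrix ι ι ℂ) * X = (u : Matrix ι ι ℂ) * X *
          (((u⁻¹ : Matrix.unitaryGroup ι ℂ) : Matrix ι ι ℂ) * (u : Matrix ι ι ℂ)) := by
          rw [inv_u, Matrix.mul_one]
      _ = ((u : Matrix ι ι ℂ) * X * ((u⁻¹ : Matrix.unitaryGroup ι ℂ) : Matrix ι ι ℂ)) *
          (u : Matrix ι ι ℂ) := by simp only [Matrix.mul_assoc]
      _ = _ := by rw [h]
  · intro h
    rw [h, Matrix.mul_assoc, u_inv, Matrix.mul_one]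

theorem inv_val (u : Matrix.unitaryGroup ι ℂ) :
    ((u⁻¹ : Matrix.unitaryGroup ι ℂ) : Matrix ι ι ℂ) = (u : Matrix ι ι ℂ)ᴴ := rfl

theorem cj_star (u : Matrix.unitaryGroup ι ℂ) (X : Matrix ι ι ℂ) : (cj u X)ᴴ = cj u Xᴴ := by
  unfold cj
  rw [inv_val, Matrix.conjTranspose_mul, Matrix.conjTranspose_mul, Matrix.conjTranspose_conjTranspose,
    Matrix.mul_assoc]

theorem cj_trace (u : Matrix.unitaryGroup ι ℂ) (X : Matrix ι ι ℂ) :
    Matrix.trace (cj u X) = Matrix.trace X := by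
  unfold cj
  rw [Matrix.trace_mul_comm, ← Matrix.mul_assoc, inv_u, Matrix.one_mul]

/-- commuting is preserved by conjugation -/
theorem cj_comm (u : Matrix.unitaryGroup ι ℂ) {X Y : Matrix ι ι ℂ} (h : X * Y = Y * X) :
    cj u X * cj u Y = cj u Y * cj u X := by
  rw [← cj_prod, ← cj_prod, h]

theorem lie_cj {L : Subgroup (Matrix.unitaryGroup ι ℂ)} {u : Matrix.unitaryGroup ι ℂ} (hu : u ∈ L)
    {X : Matrix ι ι ℂ} (hX : X ∈ LieAlg L) : cj u X ∈ LieAlg L := by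
  refine ⟨by rw [cj_star, hX.1, ← neg_one_smul ℝ X, cj_smul, neg_one_smul], fun t => ?_⟩
  obtain ⟨v, hv, hve⟩ := hX.2 t
  refine ⟨u * v * u⁻¹, L.mul_mem (L.mul_mem hu hv) (L.inv_mem hu), ?_⟩
  rw [← cj_smul, cj_exp, ← hve]
  rfl

/-- the Lie algebra of a closed subgroup, as a subspace -/
def lie (L : Subgroup (Matrix.unitaryGroup ι ℂ)) (hL : IsClosed (L : Set (Matrix.unitaryGroup ι ℂ))) :
    Submodule ℝ (Matrix ι ι ℂ) where
  carrier := LieAlg L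
  add_mem' := fun {X Y} hX hY => (CST1 ι L hL X hX Y hY).1
  zero_mem' := by
    refine ⟨by simp, fun t => ⟨1, L.one_mem, ?_⟩⟩
    rw [smul_zero, NormedSpace.exp_zero]
    rfl
  smul_mem' := by
    rintro c X ⟨hX1, hX2⟩
    refine ⟨?_, fun t => ?_⟩
    · rw [Matrix.conjTranspose_smul, hX1, star_trivial, smul_neg]
    · obtain ⟨u, hu, hu2⟩ := hX2 (t * c)
      exact ⟨u, hu, by rw [hu2, smul_smul]⟩

theorem mem_lie {L : Subgroup (Matrix.unitaryGroup ι ℂ)}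
    {hL : IsClosed (L : Set (Matrix.unitaryGroup ι ℂ))} {X : Matrix ι ι ℂ} :
    X ∈ lie L hL ↔ X ∈ LieAlg L := Iff.rfl

section frob
set_option backward.isDefEq.respectTransparency false
open scoped Matrix.Norms.Frobenius

theorem skew_zero {Z : Matrix ι ι ℂ} (hZ : Zᴴ = -Z) (h : (Matrix.trace (Z * Z)).re = 0) : Z = 0 := by
  have h1 : (Matrix.trace (Zᴴ * Z)).re = 0 := by
    rw [hZ, Matrix.neg_mul, Matrix.trace_neg, Complex.neg_re, h, neg_zero]
  have h2 := TTL_trsq Z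
  rw [h1] at h2
  have h3 : ‖Z‖ = 0 := by
    have := h2.symm
    exact pow_eq_zero_iff two_ne_zero |>.1 this
  exact norm_eq_zero.1 h3

theorem sq_zero {Z : Matrix ι ι ℂ} (h : (Matrix.trace (Zᴴ * Z)).re = 0) : Z = 0 := by
  have h2 := TTL_trsq Z
  rw [h] at h2
  have h3 : ‖Z‖ = 0 := by
    have := h2.symm
    exact pow_eq_zero_iff two_ne_zero |>.1 this
  exact norm_eq_zero.1 h3

theorem norm_cj (u : Matrix.unitaryGroup ι ℂ) (X : Matrix ι ι ℂ) : ‖cj u X‖ = ‖X‖ := by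
  have h1 := TTL_trsq (cj u X)
  have h2 := TTL_trsq X
  rw [cj_star, ← cj_prod, cj_trace, h2] at h1
  exact ((pow_left_inj₀ (norm_nonneg _) (norm_nonneg _) two_ne_zero).1 h1).symm

theorem cj_nhds {V : Set (Matrix ι ι ℂ)} (hV : V ∈ nhds (0 : Matrix ι ι ℂ)) :
    ∃ V' ∈ nhds (0 : Matrix ι ι ℂ), ∀ X ∈ V', ∀ u : Matrix.unitaryGroup ι ℂ, cj u X ∈ V := by
  obtain ⟨r, hr, hball⟩ := Metric.mem_nhds_iff.1 hV
  refine ⟨Metric.ball 0 r, Metric.ball_mem_nhds _ hr, fun X hX u => hball ?_⟩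
  rw [mem_ball_zero_iff] at hX ⊢
  rw [norm_cj]
  exact hX

theorem deriv_cj (A Z : Matrix ι ι ℂ) :
    HasDerivAt (fun t : ℝ => NormedSpace.exp (t • Z) * A * NormedSpace.exp (t • (-Z)))
      (Z * A - A * Z) 0 := by
  have h1 : HasDerivAt (fun t : ℝ => NormedSpace.exp (t • Z))
      (NormedSpace.exp ((0 : ℝ) • Z) * Z) 0 := hasDerivAt_exp_smul_const Z (0 : ℝ)
  have h2 : HasDerivAt (fun t : ℝ => NormedSpace.exp (t • (-Z)))
      (NormedSpace.exp ((0 : ℝ) • (-Z)) * (-Z)) 0 := hasDerivAt_exp_smul_const (-Z) (0 : ℝ)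
  have h3 := (h1.mul_const A).mul h2
  refine h3.congr_deriv ?_
  simp only [zero_smul, NormedSpace.exp_zero, one_mul, mul_one]
  rw [mul_neg, sub_eq_add_neg]

theorem first_order (A B Z : Matrix ι ι ℂ)
    (h : ∀ t : ℝ, (Matrix.trace (NormedSpace.exp (t • Z) * A * NormedSpace.exp (t • (-Z)) * B)).re
      ≤ (Matrix.trace (A * B)).re) :
    (Matrix.trace (Z * (A * B - B * A))).re = 0 := by
  have h1 := (deriv_cj A Z).mul_const B
  let T : Matrix ι ι ℂ →L[ℝ] ℝ :=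
    LinearMap.toContinuousLinearMap (Complex.reLm.comp (Matrix.traceLinearMap ι ℝ ℂ))
  have h2 := T.hasFDerivAt.comp_hasDerivAt (0 : ℝ) h1
  have h3 : IsLocalMax (T ∘ fun t : ℝ => NormedSpace.exp (t • Z) * A * NormedSpace.exp (t • (-Z)) * B) 0 := by
    refine Filter.Eventually.of_forall (fun t => ?_)
    have h5 := h t
    simp only [Function.comp_apply, zero_smul, NormedSpace.exp_zero, mul_one, one_mul]
    exact h5
  have h4 := h3.hasDerivAt_eq_zero h2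
  have h5 : T ((Z * A - A * Z) * B) = (Matrix.trace (Z * (A * B - B * A))).re := by
    show (Matrix.trace ((Z * A - A * Z) * B)).re = _
    rw [Matrix.sub_mul, Matrix.trace_sub, Matrix.mul_sub, Matrix.trace_sub, ← Matrix.mul_assoc,
      Matrix.mul_assoc A Z B, Matrix.trace_mul_comm A (Z * B), Matrix.mul_assoc Z B A]
  rw [← h5]
  exact h4

theorem lie_br {L : Subgroup (Matrix.unitaryGroup ι ℂ)}
    (hL : IsClosed (L : Set (Matrix.unitaryGroup ι ℂ))) {X Y : Matrix ι ι ℂ} (hX : X ∈ LieAlg L)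
    (hY : Y ∈ LieAlg L) : X * Y - Y * X ∈ LieAlg L := by
  have h1 := deriv_cj Y X
  have hcl : IsClosed ((lie L hL : Submodule ℝ (Matrix ι ι ℂ)) : Set (Matrix ι ι ℂ)) :=
    Submodule.closed_of_finiteDimensional _
  have hmem : ∀ t : ℝ, NormedSpace.exp (t • X) * Y * NormedSpace.exp (t • (-X)) ∈ lie L hL := by
    intro t
    obtain ⟨u, hu, hue⟩ := hX.2 t
    have hinv := TTL_inv_val (t • X) (by rw [Matrix.conjTranspose_smul, hX.1, smul_neg]; simp) u hue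
    have h2 := lie_cj hu hY
    unfold cj at h2
    rw [hinv, hue, ← smul_neg] at h2
    exact h2
  have h3 := (hasDerivAt_iff_tendsto_slope.1 h1)
  refine hcl.mem_of_tendsto h3 (Filter.Eventually.of_forall fun t => ?_)
  show slope _ 0 t ∈ lie L hL
  rw [slope_def_module]
  exact (lie L hL).smul_mem _ ((lie L hL).sub_mem (hmem t) (hmem 0))

theorem exp_cont (X : Matrix ι ι ℂ) : Continuous (fun s : ℝ => NormedSpace.exp (s • X)) := by
  have h := NormedSpace.exp_continuous (𝔸 := Matrix ι ι ℂ)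
  exact h.comp (continuous_id.smul continuous_const)

end frob

end Pool.Agent.W327.TIG
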