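import Mathlib
import Pool.Agent.W327.TIGb

set_option autoImplicit false

namespace Pool.Agent.W327.TIG

open Pool.LatH472 Matrix

variable {ι : Type} [Fintype ι] [DecidableEq ι]

/-- commutator with a fixed matrix -/
def ad (X : Matrix ι ι ℂ) : Matrix ι ι ℂ →ₗ[ℂ] Matrix ι ι ℂ where
  toFun W := X * W - W * X
  map_add' A B := by rw [Matrix.mul_add, Matrix.add_mul]; abel
  map_smul' c A := by
    rw [Matrix.mul_smul, Matrix.smul_mul, RingHom.id_apply, smul_sub]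

theorem ad_apply (X W : Matrix ι ι ℂ) : ad X W = X * W - W * X := rfl

theorem ad_comm {X Y : Matrix ι ι ℂ} (h : X * Y = Y * X) (W : Matrix ι ι ℂ) :
    ad X (ad Y W) = ad Y (ad X W) := by
  simp only [ad_apply, Matrix.mul_sub, Matrix.sub_mul]
  have e1 : X * (Y * W) = Y * (X * W) := by rw [← Matrix.mul_assoc, h, Matrix.mul_assoc]
  have e2 : W * Y * X = W * X * Y := by rw [Matrix.mul_assoc, ← h, Matrix.mul_assoc]
  rw [e1, e2]
  have e3 : X * (W * Y) = X * W * Y := (Matrix.mul_assoc _ _ _).symm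
  have e4 : Y * (W * X) = Y * W * X := (Matrix.mul_assoc _ _ _).symm
  rw [e3, e4]
  abel

/-- for a skew-hermitian matrix, the double commutator vanishes only if the commutator does -/
theorem ad_semi {Y : Matrix ι ι ℂ} (hY : Yᴴ = -Y) (W : Matrix ι ι ℂ) (h : ad Y (ad Y W) = 0) :
    ad Y W = 0 := by
  apply sq_zero
  obtain ⟨Z, hZ⟩ : ∃ Z, Z = ad Y W := ⟨_, rfl⟩
  rw [← hZ] at h ⊢
  have h1 : Zᴴ = Y * Wᴴ - Wᴴ * Y := by
    rw [hZ, ad_apply, Matrix.conjTranspose_sub, Matrix.conjTranspose_mul, Matrix.conjTranspose_mul, hY]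
    simp only [Matrix.mul_neg, Matrix.neg_mul]
    abel
  have h2 : Z * Y = Y * Z := by
    rw [ad_apply, sub_eq_zero] at h
    exact h.symm
  rw [h1, Matrix.sub_mul, Matrix.trace_sub, Matrix.mul_assoc Y, Matrix.trace_mul_comm Y,
    Matrix.mul_assoc Wᴴ Z Y, h2, Matrix.mul_assoc Wᴴ Y Z, sub_self, Complex.zero_re]

theorem perturb {X Y : Matrix ι ι ℂ} (hY : Yᴴ = -Y) (h : X * Y = Y * X) :
    ∃ ε : ℝ, ∀ W : Matrix ι ι ℂ, W * (X + ε • Y) = (X + ε • Y) * W → W * X = X * W ∧ W * Y = Y * W := by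
  let A := ad X
  let B := ad Y
  have hAB : ∀ W, A (B W) = B (A W) := ad_comm h
  let R : Submodule ℂ (Matrix ι ι ℂ) := LinearMap.range B
  have hB : ∀ x ∈ R, B x ∈ R := fun x _ => ⟨x, rfl⟩
  have hA : ∀ x ∈ R, A x ∈ R := by
    rintro _ ⟨w, rfl⟩
    exact ⟨A w, (hAB w).symm⟩
  let B' : R →ₗ[ℂ] R := B.restrict hB
  let A' : R →ₗ[ℂ] R := A.restrict hA
  have hinj : Function.Injective B' := by
    rw [← LinearMap.ker_eq_bot, LinearMap.ker_eq_bot']
    rintro ⟨x, hx⟩ h0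
    obtain ⟨w, rfl⟩ := hx
    have h1 : B (B w) = 0 := congrArg Subtype.val h0
    have h2 := ad_semi hY w h1
    exact Subtype.ext h2
  let e : R ≃ₗ[ℂ] R := LinearEquiv.ofInjectiveEndo B' hinj
  have he : ∀ x, e x = B' x := fun x => rfl
  let M : Module.End ℂ R := (e.symm : R →ₗ[ℂ] R) ∘ₗ A'
  have hfin := Module.End.finite_hasEigenvalue M
  have hinf : Set.Infinite (Set.range (fun ε : ℝ => -(ε : ℂ))) := by
    apply Set.infinite_range_of_injective
    intro a b hab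
    have : (a : ℂ) = b := neg_injective hab
    exact_mod_cast this
  obtain ⟨_, ⟨ε, rfl⟩, hε⟩ := (hinf.sdiff hfin).nonempty
  refine ⟨ε, fun W hW => ?_⟩
  have h0 : A W + (ε : ℂ) • B W = 0 := by
    show (X * W - W * X) + (ε : ℂ) • (Y * W - W * Y) = 0
    rw [Matrix.mul_add, Matrix.add_mul, Matrix.mul_smul, Matrix.smul_mul] at hW
    have e1 : (ε : ℂ) • (Y * W - W * Y) = ε • (Y * W) - ε • (W * Y) := by
      rw [smul_sub, Complex.coe_smul, Complex.coe_smul]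
    rw [e1]
    have : (X * W - W * X) + (ε • (Y * W) - ε • (W * Y)) = (X * W + ε • (Y * W)) - (W * X + ε • (W * Y)) := by
      abel
    rw [this, hW, sub_self]
  have hv : A (B W) + (ε : ℂ) • B (B W) = 0 := by
    rw [hAB, ← map_smul, ← map_add, h0, map_zero]
  have hBW : B W = 0 := by
    by_contra hne
    apply hε
    let v : R := ⟨B W, W, rfl⟩
    apply Module.End.hasEigenvalue_of_hasEigenvector (x := v)
    refine ⟨?_, fun h => hne (congrArg Subtype.val h)⟩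
    rw [Module.End.mem_eigenspace_iff]
    show e.symm (A' v) = (-(ε : ℂ)) • v
    rw [LinearEquiv.symm_apply_eq, he, map_smul]
    apply Subtype.ext
    show A (B W) = (-(ε : ℂ)) • B (B W)
    rw [neg_smul]
    exact eq_neg_of_add_eq_zero_left hv
  rw [hBW, smul_zero, add_zero] at h0
  have h3 : X * W - W * X = 0 := h0
  have h4 : Y * W - W * Y = 0 := hBW
  exact ⟨(sub_eq_zero.1 h3).symm, (sub_eq_zero.1 h4).symm⟩

/-- the elements of `g` commuting with `Y` -/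
def cen (g : Submodule ℝ (Matrix ι ι ℂ)) (Y : Matrix ι ι ℂ) : Submodule ℝ (Matrix ι ι ℂ) where
  carrier := {W | W ∈ g ∧ W * Y = Y * W}
  add_mem' := by
    rintro a b ⟨ha, ha'⟩ ⟨hb, hb'⟩
    exact ⟨g.add_mem ha hb, by rw [Matrix.add_mul, Matrix.mul_add, ha', hb']⟩
  zero_mem' := ⟨g.zero_mem, by rw [Matrix.zero_mul, Matrix.mul_zero]⟩
  smul_mem' := by
    rintro c a ⟨ha, ha'⟩
    exact ⟨g.smul_mem c ha, by rw [Matrix.smul_mul, Matrix.mul_smul, ha']⟩

theorem mem_cen {g : Submodule ℝ (Matrix ι ι ℂ)} {Y W : Matrix ι ι ℂ} :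
    W ∈ cen g Y ↔ W ∈ g ∧ W * Y = Y * W := Iff.rfl

/-- regular elements: the centraliser is commutative -/
def Reg (g : Submodule ℝ (Matrix ι ι ℂ)) (Y : Matrix ι ι ℂ) : Prop :=
  ∀ W ∈ cen g Y, ∀ W' ∈ cen g Y, W * W' = W' * W

theorem exists_reg (g : Submodule ℝ (Matrix ι ι ℂ)) (hg : ∀ X ∈ g, Xᴴ = -X) : ∃ Y ∈ g, Reg g Y := by
  classical
  have hex : ∃ n : ℕ, ∃ Y ∈ g, Module.finrank ℝ (cen g Y) = n := ⟨_, 0, g.zero_mem, rfl⟩
  obtain ⟨Y, hY, hYn⟩ := Nat.find_spec hex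
  have hmin : ∀ Y' ∈ g, Module.finrank ℝ (cen g Y) ≤ Module.finrank ℝ (cen g Y') := by
    intro Y' hY'
    rw [hYn]
    exact Nat.find_min' hex ⟨Y', hY', rfl⟩
  refine ⟨Y, hY, fun W hW W' hW' => ?_⟩
  obtain ⟨ε, hε⟩ := perturb (X := Y) (Y := W) (hg W hW.1) hW.2.symm
  have hle : cen g (Y + ε • W) ≤ cen g Y := fun V hV => ⟨hV.1, (hε V hV.2).1⟩
  have heq : cen g (Y + ε • W) = cen g Y :=
    Submodule.eq_of_le_of_finrank_le hle (hmin _ (g.add_mem hY (g.smul_mem ε hW.1)))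
  have h1 : W' ∈ cen g (Y + ε • W) := by rw [heq]; exact hW'
  exact (hε W' h1.2).2.symm

end Pool.Agent.W327.TIG
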