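import Mathlib
import Pool.Agent.Helper472.Lat_G3
import Pool.Agent.W327.TIGc

set_option autoImplicit false

namespace Pool.Agent.W327.TIG

open Pool.LatH472 Matrix

variable {ι : Type} [Fintype ι] [DecidableEq ι]

theorem cj_cont (X : Matrix ι ι ℂ) : Continuous (fun u : Matrix.unitaryGroup ι ℂ => cj u X) := by
  unfold cj
  have h1 : Continuous (fun u : Matrix.unitaryGroup ι ℂ => (u : Matrix ι ι ℂ)) := continuous_subtype_val
  have h2 : Continuous (fun u : Matrix.unitaryGroup ι ℂ =>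
      ((u⁻¹ : Matrix.unitaryGroup ι ℂ) : Matrix ι ι ℂ)) := continuous_subtype_val.comp continuous_inv
  exact (h1.mul continuous_const).mul h2

/-- every element of the Lie algebra is conjugate to an element commuting with a given one -/
theorem conj_into {C : Subgroup (Matrix.unitaryGroup ι ℂ)}
    (hC : IsClosed (C : Set (Matrix.unitaryGroup ι ℂ))) {X Y : Matrix ι ι ℂ} (hX : X ∈ LieAlg C)
    (hY : Y ∈ LieAlg C) : ∃ k ∈ C, cj k X * Y = Y * cj k X := by
  have : CompactSpace (Matrix.unitaryGroup ι ℂ) := TTL_compact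
  have hcomp : IsCompact (C : Set (Matrix.unitaryGroup ι ℂ)) := hC.isCompact
  have hcont : Continuous (fun k : Matrix.unitaryGroup ι ℂ => (Matrix.trace (cj k X * Y)).re) := by
    refine Complex.continuous_re.comp ?_
    exact Continuous.matrix_trace ((cj_cont X).mul continuous_const)
  obtain ⟨k, hk, hmax⟩ := hcomp.exists_isMaxOn ⟨1, C.one_mem⟩ hcont.continuousOn
  refine ⟨k, hk, ?_⟩
  have hX' := lie_cj hk hX
  have hZ := lie_br hC hX' hY
  have hfo := first_order (cj k X) Y (cj k X * Y - Y * cj k X) (by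
    intro t
    obtain ⟨e, he, hee⟩ := hZ.2 t
    have hinv := TTL_inv_val (t • (cj k X * Y - Y * cj k X))
      (by rw [Matrix.conjTranspose_smul, hZ.1, smul_neg]; simp) e hee
    have h1 := hmax (C.mul_mem he hk)
    simp only [Set.mem_ofPred_eq, cj_mul] at h1
    have e1 : cj e (cj k X) = NormedSpace.exp (t • (cj k X * Y - Y * cj k X)) * cj k X *
        NormedSpace.exp (t • (-(cj k X * Y - Y * cj k X))) := by
      rw [smul_neg, ← hinv, ← hee]
      rfl
    rw [e1] at h1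
    exact h1)
  have h0 := skew_zero hZ.1 hfo
  exact sub_eq_zero.1 h0

/-- `h` normalises the centraliser of `R` in the Lie algebra of `L` -/
def Nz (L : Subgroup (Matrix.unitaryGroup ι ℂ)) (R : Matrix ι ι ℂ) (h : Matrix.unitaryGroup ι ℂ) :
    Prop :=
  ∀ W ∈ LieAlg L, W * R = R * W → cj h W * R = R * cj h W ∧ cj h⁻¹ W * R = R * cj h⁻¹ W

theorem Nz_closed (L : Subgroup (Matrix.unitaryGroup ι ℂ)) (R : Matrix ι ι ℂ) :
    IsClosed {h : Matrix.unitaryGroup ι ℂ | Nz L R h} := by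
  have : {h : Matrix.unitaryGroup ι ℂ | Nz L R h} =
      ⋂ W : {W : Matrix ι ι ℂ // W ∈ LieAlg L ∧ W * R = R * W},
        {h : Matrix.unitaryGroup ι ℂ | cj h W.1 * R = R * cj h W.1 ∧ cj h⁻¹ W.1 * R = R * cj h⁻¹ W.1} := by
    ext h
    simp only [Set.mem_ofPred_eq, Set.mem_iInter]
    constructor
    · rintro h1 ⟨W, hW, hW'⟩
      exact h1 W hW hW'
    · intro h1 W hW hW'
      exact h1 ⟨W, hW, hW'⟩
  rw [this]
  refine isClosed_iInter fun W => ?_
  have c1 := cj_cont (W.1 : Matrix ι ι ℂ)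
  have c2 := c1.comp (continuous_inv (G := Matrix.unitaryGroup ι ℂ))
  exact (isClosed_eq (c1.mul continuous_const) (continuous_const.mul c1)).inter
    (isClosed_eq (c2.mul continuous_const) (continuous_const.mul c2))

/-- regularity for a closed subgroup -/
def RegL (L : Subgroup (Matrix.unitaryGroup ι ℂ)) (Y : Matrix ι ι ℂ) : Prop :=
  ∀ W ∈ LieAlg L, W * Y = Y * W → ∀ W' ∈ LieAlg L, W' * Y = Y * W' → W * W' = W' * W

theorem RegL_cj {L : Subgroup (Matrix.unitaryGroup ι ℂ)} {Y : Matrix ι ι ℂ} (hY : RegL L Y)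
    {g : Matrix.unitaryGroup ι ℂ} (hg : g ∈ L) : RegL L (cj g Y) := by
  intro W hW hWY W' hW' hWY'
  have h1 := hY (cj g⁻¹ W) (lie_cj (L.inv_mem hg) hW) (by
    have := cj_comm g⁻¹ hWY
    rwa [cj_inv_cj] at this) (cj g⁻¹ W') (lie_cj (L.inv_mem hg) hW') (by
    have := cj_comm g⁻¹ hWY'
    rwa [cj_inv_cj] at this)
  have h2 := cj_comm g h1
  rwa [cj_cj_inv, cj_cj_inv] at h2

/-- two commuting regular elements have the same centraliser -/
theorem reg_iff {L : Subgroup (Matrix.unitaryGroup ι ℂ)} {Y R : Matrix ι ι ℂ} (hYL : Y ∈ LieAlg L)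
    (hRL : R ∈ LieAlg L) (hY : RegL L Y) (hR : RegL L R) (h : R * Y = Y * R) {W : Matrix ι ι ℂ}
    (hW : W ∈ LieAlg L) : W * R = R * W ↔ W * Y = Y * W := by
  constructor
  · intro h1
    exact hR W hW h1 Y hYL h.symm
  · intro h1
    exact hY W hW h1 R hRL h

/-- the set of elements conjugate (by `C`) into the normaliser -/
def EE (L C : Subgroup (Matrix.unitaryGroup ι ℂ)) (Y : Matrix ι ι ℂ)
    (h : Matrix.unitaryGroup ι ℂ) : Prop :=
  ∃ k ∈ C, Nz L Y (k * h * k⁻¹)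

theorem Nz_cj {L : Subgroup (Matrix.unitaryGroup ι ℂ)} {R : Matrix ι ι ℂ}
    {k h : Matrix.unitaryGroup ι ℂ} (hk : k ∈ L) (hN : Nz L R h) : Nz L (cj k R) (k * h * k⁻¹) := by
  intro W hW hWR
  have h1 : cj k⁻¹ W * R = R * cj k⁻¹ W := by
    have := cj_comm k⁻¹ hWR
    rwa [cj_inv_cj] at this
  obtain ⟨h2, h3⟩ := hN (cj k⁻¹ W) (lie_cj (L.inv_mem hk) hW) h1
  constructor
  · have := cj_comm k h2
    rw [cj_mul, cj_mul]
    exact this
  · have := cj_comm k h3
    rw [show (k * h * k⁻¹)⁻¹ = k * h⁻¹ * k⁻¹ by group, cj_mul, cj_mul]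
    exact this

theorem EE_of {L C : Subgroup (Matrix.unitaryGroup ι ℂ)}
    (hC : IsClosed (C : Set (Matrix.unitaryGroup ι ℂ))) (hCL : C ≤ L)
    (hlie : ∀ X ∈ LieAlg L, X ∈ LieAlg C) {Y R : Matrix ι ι ℂ} (hYL : Y ∈ LieAlg L)
    (hRL : R ∈ LieAlg L) (hY : RegL L Y) (hR : RegL L R) {h : Matrix.unitaryGroup ι ℂ}
    (hh : h ∈ L) (hN : Nz L R h) : EE L C Y h := by
  obtain ⟨k, hk, hkc⟩ := conj_into hC (hlie R hRL) (hlie Y hYL)
  refine ⟨k, hk, ?_⟩
  have h1 := Nz_cj (hCL hk) hN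
  have hR' := RegL_cj hR (hCL hk)
  have hRL' := lie_cj (hCL hk) hRL
  intro W hW hWY
  have h2 := (reg_iff hYL hRL' hY hR' hkc hW).2 hWY
  obtain ⟨h3, h4⟩ := h1 W hW h2
  have hg : k * h * k⁻¹ ∈ L := L.mul_mem (L.mul_mem (hCL hk) hh) (L.inv_mem (hCL hk))
  exact ⟨(reg_iff hYL hRL' hY hR' hkc (lie_cj hg hW)).1 h3,
    (reg_iff hYL hRL' hY hR' hkc (lie_cj (L.inv_mem hg) hW)).1 h4⟩

/-- every coset of `C` meets the normaliser -/
theorem frattini {L C : Subgroup (Matrix.unitaryGroup ι ℂ)}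
    (hC : IsClosed (C : Set (Matrix.unitaryGroup ι ℂ))) (hCL : C ≤ L)
    (hlie : ∀ X ∈ LieAlg L, X ∈ LieAlg C) {Y : Matrix ι ι ℂ} (hYL : Y ∈ LieAlg L)
    (hY : RegL L Y) {h : Matrix.unitaryGroup ι ℂ} (hh : h ∈ L) : ∃ k ∈ C, Nz L Y (k * h) := by
  have hRL := lie_cj hh hYL
  obtain ⟨k, hk, hkc⟩ := conj_into hC (hlie _ hRL) (hlie Y hYL)
  refine ⟨k, hk, ?_⟩
  have hkh : k * h ∈ L := L.mul_mem (hCL hk) hh
  rw [← cj_mul] at hkc
  have hR' := RegL_cj hY hkh
  have hRL' := lie_cj hkh hYL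
  intro W hW hWY
  constructor
  · refine (reg_iff hYL hRL' hY hR' hkc (lie_cj hkh hW)).1 ?_
    exact cj_comm _ hWY
  · have h2 := (reg_iff hYL hRL' hY hR' hkc hW).2 hWY
    have h3 := cj_comm (k * h)⁻¹ h2
    rwa [cj_inv_cj] at h3

/-- the identity component -/
noncomputable def icomp (L : Subgroup (Matrix.unitaryGroup ι ℂ)) : Subgroup (Matrix.unitaryGroup ι ℂ) :=
  (Subgroup.connectedComponentOfOne L).map L.subtype

theorem icomp_le (L : Subgroup (Matrix.unitaryGroup ι ℂ)) : icomp L ≤ L := by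
  rintro _ ⟨x, _, rfl⟩
  exact x.2

theorem icomp_closed (L : Subgroup (Matrix.unitaryGroup ι ℂ))
    (hL : IsClosed (L : Set (Matrix.unitaryGroup ι ℂ))) :
    IsClosed (icomp L : Set (Matrix.unitaryGroup ι ℂ)) :=
  hL.isClosedEmbedding_subtypeVal.isClosedMap _ (isClosed_connectedComponent)

theorem icomp_conn (L : Subgroup (Matrix.unitaryGroup ι ℂ)) :
    IsPreconnected (icomp L : Set (Matrix.unitaryGroup ι ℂ)) :=
  isPreconnected_connectedComponent.image _ continuous_subtype_val.continuousOn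

theorem icomp_lie (L : Subgroup (Matrix.unitaryGroup ι ℂ)) {X : Matrix ι ι ℂ} (hX : X ∈ LieAlg L) :
    X ∈ LieAlg (icomp L) := by
  refine ⟨hX.1, fun t => ?_⟩
  choose u hu hue using hX.2
  let f : ℝ → L := fun s => ⟨u s, hu s⟩
  have hf : Continuous f := by
    refine Continuous.subtype_mk ?_ _
    refine continuous_induced_rng.2 ?_
    have : (Subtype.val ∘ u) = fun s : ℝ => NormedSpace.exp (s • X) := funext hue
    rw [this]
    exact exp_cont X
  have h0 : f 0 = 1 := by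
    apply Subtype.ext
    apply Subtype.ext
    show (u 0 : Matrix ι ι ℂ) = 1
    rw [hue, zero_smul, NormedSpace.exp_zero]
  have hpre : IsPreconnected (f '' Set.univ) := isPreconnected_univ.image _ hf.continuousOn
  have h1 : f t ∈ connectedComponent (1 : L) := by
    refine hpre.subset_connectedComponent ⟨0, trivial, h0⟩ ⟨t, trivial, rfl⟩
  exact ⟨u t, ⟨f t, h1, rfl⟩, hue t⟩

theorem icomp_conj (L : Subgroup (Matrix.unitaryGroup ι ℂ)) {h c : Matrix.unitaryGroup ι ℂ}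
    (hh : h ∈ L) (hc : c ∈ icomp L) : h * c * h⁻¹ ∈ icomp L := by
  obtain ⟨x, hx, rfl⟩ := hc
  obtain ⟨y, hy⟩ : ∃ y : L, (y : Matrix.unitaryGroup ι ℂ) = h := ⟨⟨h, hh⟩, rfl⟩
  have h1 : y * x * y⁻¹ ∈ Subgroup.connectedComponentOfOne L := (G3_normal L).conj_mem x hx y
  refine ⟨y * x * y⁻¹, h1, ?_⟩
  rw [map_mul, map_mul, map_inv]
  show (y : Matrix.unitaryGroup ι ℂ) * x * (y : Matrix.unitaryGroup ι ℂ)⁻¹ = _
  rw [hy]
  rfl

end Pool.Agent.W327.TIG
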