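import Mathlib
import Pool.Agent.W327.TIGd

set_option autoImplicit false

namespace Pool.Agent.W327.TIG

open Pool.LatH472 Matrix

variable {ι : Type} [Fintype ι] [DecidableEq ι]

/-- the centraliser of `X` in `L` -/
noncomputable def cz (L : Subgroup (Matrix.unitaryGroup ι ℂ)) (X : Matrix ι ι ℂ) :
    Subgroup (Matrix.unitaryGroup ι ℂ) where
  carrier := {g | g ∈ L ∧ cj g X = X}
  mul_mem' := by
    rintro a b ⟨ha, ha'⟩ ⟨hb, hb'⟩
    exact ⟨L.mul_mem ha hb, by rw [cj_mul, hb', ha']⟩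
  one_mem' := ⟨L.one_mem, cj_one X⟩
  inv_mem' := by
    rintro a ⟨ha, ha'⟩
    refine ⟨L.inv_mem ha, ?_⟩
    have := cj_inv_cj a X
    rwa [ha'] at this

theorem cz_closed (L : Subgroup (Matrix.unitaryGroup ι ℂ))
    (hL : IsClosed (L : Set (Matrix.unitaryGroup ι ℂ))) (X : Matrix ι ι ℂ) :
    IsClosed (cz L X : Set (Matrix.unitaryGroup ι ℂ)) :=
  hL.inter (isClosed_eq (cj_cont X) continuous_const)

section frob
set_option backward.isDefEq.respectTransparency false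
open scoped Matrix.Norms.Frobenius

theorem cz_lie1 (L : Subgroup (Matrix.unitaryGroup ι ℂ)) (X : Matrix ι ι ℂ) {W : Matrix ι ι ℂ}
    (hW : W ∈ LieAlg (cz L X)) : W ∈ LieAlg L ∧ W * X = X * W := by
  refine ⟨⟨hW.1, fun t => ?_⟩, ?_⟩
  · obtain ⟨u, hu, hue⟩ := hW.2 t
    exact ⟨u, hu.1, hue⟩
  · have h1 := deriv_cj X W
    have h2 : (fun t : ℝ => NormedSpace.exp (t • W) * X * NormedSpace.exp (t • (-W))) = fun _ => X := by
      funext t
      obtain ⟨u, hu, hue⟩ := hW.2 t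
      have hinv := TTL_inv_val (t • W) (by rw [Matrix.conjTranspose_smul, hW.1, smul_neg]; simp) u hue
      have h3 := hu.2
      unfold cj at h3
      rw [hinv, hue, ← smul_neg] at h3
      exact h3
    rw [h2] at h1
    have h3 := h1.unique (hasDerivAt_const (0 : ℝ) X)
    exact sub_eq_zero.1 h3

theorem exp_comm {X W : Matrix ι ι ℂ} (h : W * X = X * W) :
    NormedSpace.exp W * X = X * NormedSpace.exp W :=
  (Commute.exp_left (show Commute W X from h)).eq

end frob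

theorem cj_exp_self {X W : Matrix ι ι ℂ} (h : W * X = X * W) (u : Matrix.unitaryGroup ι ℂ)
    (hu : (u : Matrix ι ι ℂ) = NormedSpace.exp W) : cj u X = X := by
  rw [cj_eq_self_iff, hu]
  exact exp_comm h

theorem cz_lie2 (L : Subgroup (Matrix.unitaryGroup ι ℂ)) (X : Matrix ι ι ℂ) {W : Matrix ι ι ℂ}
    (hW : W ∈ LieAlg L) (h : W * X = X * W) : W ∈ LieAlg (cz L X) := by
  refine ⟨hW.1, fun t => ?_⟩
  obtain ⟨u, hu, hue⟩ := hW.2 t
  refine ⟨u, ⟨hu, cj_exp_self (W := t • W) ?_ u hue⟩, hue⟩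
  rw [Matrix.smul_mul, Matrix.mul_smul, h]

/-- every element normalises the centraliser of some regular element -/
def Stab (L : Subgroup (Matrix.unitaryGroup ι ℂ)) : Prop :=
  ∀ h ∈ L, ∃ R ∈ LieAlg L, RegL L R ∧ Nz L R h

theorem step (L : Subgroup (Matrix.unitaryGroup ι ℂ))
    (hL : IsClosed (L : Set (Matrix.unitaryGroup ι ℂ)))
    (IH : ∀ (L' : Subgroup (Matrix.unitaryGroup ι ℂ))
      (hL' : IsClosed (L' : Set (Matrix.unitaryGroup ι ℂ))),
      Module.finrank ℝ (lie L' hL') < Module.finrank ℝ (lie L hL) → Stab L')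
    {Y : Matrix ι ι ℂ} (hYL : Y ∈ LieAlg L) (hY : RegL L Y) {n h' : Matrix.unitaryGroup ι ℂ}
    (hn : n ∈ L) (hN : Nz L Y n) (hh' : h' ∈ L) {X : Matrix ι ι ℂ} (hX : X ∈ LieAlg L)
    (hnX : cj n X = X) (u : Matrix.unitaryGroup ι ℂ)
    (hue : (u : Matrix ι ι ℂ) = NormedSpace.exp X) (hh : h' = n * u) :
    ∃ R ∈ LieAlg L, RegL L R ∧ Nz L R h' := by
  by_cases hc : ∀ W ∈ LieAlg L, W * X = X * W
  · refine ⟨Y, hYL, hY, fun W hW hWY => ?_⟩
    have e1 : ∀ W ∈ LieAlg L, cj u W = W := fun W hW => cj_exp_self (hc W hW).symm u hue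
    have e2 : ∀ W ∈ LieAlg L, cj u⁻¹ W = W := by
      intro W hW
      have := cj_inv_cj u W
      rwa [e1 W hW] at this
    obtain ⟨h1, h2⟩ := hN W hW hWY
    constructor
    · rw [hh, cj_mul, e1 W hW]
      exact h1
    · rw [hh, _root_.mul_inv_rev, cj_mul, e2 _ (lie_cj (L.inv_mem hn) hW)]
      exact h2
  · have hcl := cz_closed L hL X
    have hle : lie (cz L X) hcl ≤ lie L hL := fun W hW => (cz_lie1 L X hW).1
    have hlt : lie (cz L X) hcl < lie L hL := by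
      refine lt_of_le_of_ne hle fun heq => hc fun W hW => ?_
      have : W ∈ lie (cz L X) hcl := by rw [heq]; exact hW
      exact (cz_lie1 L X this).2
    have hIH := IH (cz L X) hcl (Submodule.finrank_lt_finrank_of_lt hlt)
    have huX : cj u X = X := cj_exp_self rfl u hue
    have hmem : h' ∈ cz L X := ⟨hh', by rw [hh, cj_mul, huX, hnX]⟩
    obtain ⟨R', hR', hreg, hnz⟩ := hIH h' hmem
    obtain ⟨hR'L, hR'X⟩ := cz_lie1 L X hR'
    obtain ⟨ε, hε⟩ := perturb (X := X) (Y := R') hR'.1 hR'X.symm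
    have hRL : X + ε • R' ∈ LieAlg L :=
      (lie L hL).add_mem (show X ∈ lie L hL from hX) ((lie L hL).smul_mem ε (show R' ∈ lie L hL from hR'L))
    refine ⟨X + ε • R', hRL, ?_, ?_⟩
    · intro W hW hWR W' hW' hWR'
      obtain ⟨a1, a2⟩ := hε W hWR
      obtain ⟨b1, b2⟩ := hε W' hWR'
      exact hreg W (cz_lie2 L X hW a1) a2 W' (cz_lie2 L X hW' b1) b2
    · intro W hW hWR
      obtain ⟨a1, a2⟩ := hε W hWR
      obtain ⟨h1, h2⟩ := hnz W (cz_lie2 L X hW a1) a2
      have c1 := cj_comm h' a1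
      rw [hmem.2] at c1
      have hinvX : cj h'⁻¹ X = X := ((cz L X).inv_mem hmem).2
      have c2 := cj_comm h'⁻¹ a1
      rw [hinvX] at c2
      constructor
      · rw [Matrix.mul_add, Matrix.add_mul, Matrix.mul_smul, Matrix.smul_mul, c1, h1]
      · rw [Matrix.mul_add, Matrix.add_mul, Matrix.mul_smul, Matrix.smul_mul, c2, h2]

end Pool.Agent.W327.TIG
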