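import Mathlib
import Pool.Agent.W327.TIGe

set_option autoImplicit false

namespace Pool.Agent.W327.TIG

open Pool.LatH472 Matrix

variable {ι : Type} [Fintype ι] [DecidableEq ι]

theorem tr_cont : Continuous (fun u : Matrix.unitaryGroup ι ℂ => (Matrix.trace (u : Matrix ι ι ℂ)).re) :=
  Complex.continuous_re.comp ((Continuous.matrix_trace continuous_id).comp continuous_subtype_val)

theorem tr_conj (k g : Matrix.unitaryGroup ι ℂ) :
    Matrix.trace ((k * g * k⁻¹ : Matrix.unitaryGroup ι ℂ) : Matrix ι ι ℂ) =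
      Matrix.trace (g : Matrix ι ι ℂ) :=
  cj_trace k (g : Matrix ι ι ℂ)

theorem key (L C : Subgroup (Matrix.unitaryGroup ι ℂ))
    (hL : IsClosed (L : Set (Matrix.unitaryGroup ι ℂ)))
    (hC : IsClosed (C : Set (Matrix.unitaryGroup ι ℂ))) (hCL : C ≤ L)
    (hlie : ∀ X ∈ LieAlg L, X ∈ LieAlg C)
    (IH : ∀ (L' : Subgroup (Matrix.unitaryGroup ι ℂ))
      (hL' : IsClosed (L' : Set (Matrix.unitaryGroup ι ℂ))),
      Module.finrank ℝ (lie L' hL') < Module.finrank ℝ (lie L hL) → Stab L')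
    {Y : Matrix ι ι ℂ} (hYL : Y ∈ LieAlg L) (hY : RegL L Y) :
    ∃ ε : ℝ, 0 < ε ∧ ∀ x ∈ L, ∀ y ∈ L, EE L C Y y →
      (Fintype.card ι : ℝ) - (Matrix.trace ((y⁻¹ * x : Matrix.unitaryGroup ι ℂ) : Matrix ι ι ℂ)).re < ε →
      EE L C Y x := by
  have hcs : CompactSpace (Matrix.unitaryGroup ι ℂ) := TTL_compact
  obtain ⟨V, hV, hrig⟩ := TTL_rigid ι
  obtain ⟨V', hV', hVV'⟩ := cj_nhds hV
  obtain ⟨O, hO, hOV⟩ := CST2 CST1 ι L hL V' hV'
  obtain ⟨ε, hε, hclose⟩ := TTL_close O hO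
  refine ⟨ε, hε, ?_⟩
  intro x hx y hy hEy hxy
  obtain ⟨k1, hk1, hN1⟩ := hEy
  have hNcl : IsClosed ((L : Set (Matrix.unitaryGroup ι ℂ)) ∩ {g | Nz L Y g}) :=
    hL.inter (Nz_closed L Y)
  have hcomp : IsCompact ((C : Set (Matrix.unitaryGroup ι ℂ)) ×ˢ
      ((L : Set (Matrix.unitaryGroup ι ℂ)) ∩ {g | Nz L Y g})) :=
    hC.isCompact.prod hNcl.isCompact
  have hcont : Continuous (fun p : Matrix.unitaryGroup ι ℂ × Matrix.unitaryGroup ι ℂ =>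
      (Matrix.trace ((p.2⁻¹ * (p.1 * x * p.1⁻¹) : Matrix.unitaryGroup ι ℂ) : Matrix ι ι ℂ)).re) := by
    refine tr_cont.comp ?_
    fun_prop
  have hk1L := hCL hk1
  have hn0 : (k1, k1 * y * k1⁻¹) ∈ ((C : Set (Matrix.unitaryGroup ι ℂ)) ×ˢ
      ((L : Set (Matrix.unitaryGroup ι ℂ)) ∩ {g | Nz L Y g})) :=
    ⟨hk1, L.mul_mem (L.mul_mem hk1L hy) (L.inv_mem hk1L), hN1⟩
  obtain ⟨⟨k, n⟩, ⟨hk, hnL, hnN⟩, hmax⟩ := hcomp.exists_isMaxOn ⟨_, hn0⟩ hcont.continuousOn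
  simp only at hk hnL hnN
  have hkL := hCL hk
  have hh'L : k * x * k⁻¹ ∈ L := L.mul_mem (L.mul_mem hkL hx) (L.inv_mem hkL)
  obtain ⟨h', hh'⟩ : ∃ h', h' = k * x * k⁻¹ := ⟨_, rfl⟩
  rw [← hh'] at hh'L
  have huL : n⁻¹ * h' ∈ L := L.mul_mem (L.inv_mem hnL) hh'L
  have hval : (Fintype.card ι : ℝ) - (Matrix.trace ((n⁻¹ * h' : Matrix.unitaryGroup ι ℂ) :
      Matrix ι ι ℂ)).re < ε := by
    have h1 := hmax hn0
    simp only [Set.mem_ofPred_eq] at h1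
    rw [show (k1 * y * k1⁻¹)⁻¹ * (k1 * x * k1⁻¹) = k1 * (y⁻¹ * x) * k1⁻¹ by group, tr_conj,
      ← hh'] at h1
    linarith
  obtain ⟨X, hX, hXV, hXe⟩ := hOV _ huL (hclose _ hval)
  have hZ : cj n X - X ∈ LieAlg L := (lie L hL).sub_mem (lie_cj hnL hX) hX
  have hB : ((n⁻¹ * h' : Matrix.unitaryGroup ι ℂ) : Matrix ι ι ℂ) =
      ((n⁻¹ : Matrix.unitaryGroup ι ℂ) : Matrix ι ι ℂ) * (h' : Matrix ι ι ℂ) := rfl
  have hfo := first_order (h' : Matrix ι ι ℂ) ((n⁻¹ : Matrix.unitaryGroup ι ℂ) : Matrix ι ι ℂ)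
    (cj n X - X) (by
      intro t
      obtain ⟨e, he, hee⟩ := (hlie _ hZ).2 t
      have hinv := TTL_inv_val (t • (cj n X - X))
        (by rw [Matrix.conjTranspose_smul, hZ.1, smul_neg]; simp) e hee
      have hmem : (e * k, n) ∈ ((C : Set (Matrix.unitaryGroup ι ℂ)) ×ˢ
          ((L : Set (Matrix.unitaryGroup ι ℂ)) ∩ {g | Nz L Y g})) :=
        ⟨C.mul_mem he hk, hnL, hnN⟩
      have h1 := hmax hmem
      simp only [Set.mem_ofPred_eq] at h1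
      rw [show n⁻¹ * (e * k * x * (e * k)⁻¹) = n⁻¹ * (e * h' * e⁻¹) by rw [hh']; group, ← hh'] at h1
      have e1 : ((n⁻¹ * (e * h' * e⁻¹) : Matrix.unitaryGroup ι ℂ) : Matrix ι ι ℂ) =
          ((n⁻¹ : Matrix.unitaryGroup ι ℂ) : Matrix ι ι ℂ) *
            (NormedSpace.exp (t • (cj n X - X)) * (h' : Matrix ι ι ℂ) *
              NormedSpace.exp (t • (-(cj n X - X)))) := by
        rw [smul_neg, ← hinv, ← hee]
        rfl
      rw [e1, hB, Matrix.trace_mul_comm, Matrix.trace_mul_comm _ (h' : Matrix ι ι ℂ)] at h1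
      exact h1)
  have e2 : (h' : Matrix ι ι ℂ) * ((n⁻¹ : Matrix.unitaryGroup ι ℂ) : Matrix ι ι ℂ) =
      NormedSpace.exp (cj n X) := by
    rw [cj_exp, hXe]
    unfold cj
    have : (n : Matrix ι ι ℂ) * ((n⁻¹ * h' : Matrix.unitaryGroup ι ℂ) : Matrix ι ι ℂ) = (h' : Matrix ι ι ℂ) := by
      rw [hB, ← Matrix.mul_assoc, u_inv, Matrix.one_mul]
    rw [this]
  rw [e2, ← hB, ← hXe] at hfo
  have hnX : cj n X = X := by
    refine hrig (cj n X) (hVV' X hXV n) X ?_ (lie_cj hnL hX).1 hX.1 hfo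
    have := hVV' X hXV 1
    rwa [cj_one] at this
  obtain ⟨R, hR, hRr, hRn⟩ := step L hL IH hYL hY hnL hnN hh'L hX hnX (n⁻¹ * h') hXe.symm (by group)
  obtain ⟨k2, hk2, hN2⟩ := EE_of hC hCL hlie hYL hR hY hRr hh'L hRn
  refine ⟨k2 * k, C.mul_mem hk2 hk, ?_⟩
  rw [hh'] at hN2
  rw [show k2 * k * x * (k2 * k)⁻¹ = k2 * (k * x * k⁻¹) * k2⁻¹ by group]
  exact hN2

theorem stab_all (m : ℕ) : ∀ (L : Subgroup (Matrix.unitaryGroup ι ℂ))
    (hL : IsClosed (L : Set (Matrix.unitaryGroup ι ℂ))), Module.finrank ℝ (lie L hL) = m →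
    Stab L := by
  induction m using Nat.strong_induction_on with
  | _ m ih =>
  intro L hL hm h hh
  obtain ⟨Y, hYL, hYr⟩ := exists_reg (lie L hL) (fun X hX => hX.1)
  have hY : RegL L Y := fun W hW hWY W' hW' hWY' => hYr W ⟨hW, hWY⟩ W' ⟨hW', hWY'⟩
  have hlie : ∀ X ∈ LieAlg L, X ∈ LieAlg (icomp L) := fun X hX => icomp_lie L hX
  obtain ⟨ε, hε, hkey⟩ := key L (icomp L) hL (icomp_closed L hL) (icomp_le L) hlie
    (fun L' hL' hlt => ih _ (by omega) L' hL' rfl) hYL hY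
  have hEE : EE L (icomp L) Y h := by
    obtain ⟨k, hk, hN⟩ := frattini (icomp_closed L hL) (icomp_le L) hlie hYL hY hh
    let S : Set (Matrix.unitaryGroup ι ℂ) := (fun c => c * h) '' (icomp L : Set (Matrix.unitaryGroup ι ℂ))
    have hS : IsPreconnected S := (icomp_conn L).image _ (by fun_prop)
    have hSL : ∀ z ∈ S, z ∈ L := by
      rintro _ ⟨c, hc, rfl⟩
      exact L.mul_mem (icomp_le L hc) hh
    let U1 : Set (Matrix.unitaryGroup ι ℂ) := ⋃ y : {y // y ∈ L ∧ EE L (icomp L) Y y},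
      {z | (Fintype.card ι : ℝ) - (Matrix.trace ((y.1⁻¹ * z : Matrix.unitaryGroup ι ℂ) : Matrix ι ι ℂ)).re < ε}
    let U2 : Set (Matrix.unitaryGroup ι ℂ) := ⋃ y : {y // y ∈ L ∧ ¬ EE L (icomp L) Y y},
      {z | (Fintype.card ι : ℝ) - (Matrix.trace ((z⁻¹ * y.1 : Matrix.unitaryGroup ι ℂ) : Matrix ι ι ℂ)).re < ε}
    have hU1 : IsOpen U1 := by
      refine isOpen_iUnion fun y => ?_
      refine isOpen_lt (continuous_const.sub (tr_cont.comp ?_)) continuous_const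
      fun_prop
    have hU2 : IsOpen U2 := by
      refine isOpen_iUnion fun y => ?_
      refine isOpen_lt (continuous_const.sub (tr_cont.comp ?_)) continuous_const
      fun_prop
    have hself : ∀ z : Matrix.unitaryGroup ι ℂ, (Fintype.card ι : ℝ) -
        (Matrix.trace ((z⁻¹ * z : Matrix.unitaryGroup ι ℂ) : Matrix ι ι ℂ)).re < ε := by
      intro z
      rw [inv_mul_cancel]
      have : ((1 : Matrix.unitaryGroup ι ℂ) : Matrix ι ι ℂ) = 1 := rfl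
      rw [this, Matrix.trace_one, Complex.natCast_re, sub_self]
      exact hε
    have hU1L : ∀ z ∈ U1, z ∈ L → EE L (icomp L) Y z := by
      intro z hz hzL
      obtain ⟨⟨y, hyL, hyE⟩, hyz⟩ := Set.mem_iUnion.1 hz
      exact hkey z hzL y hyL hyE hyz
    have hU2L : ∀ z ∈ U2, z ∈ L → ¬ EE L (icomp L) Y z := by
      intro z hz hzL hzE
      obtain ⟨⟨y, hyL, hyE⟩, hyz⟩ := Set.mem_iUnion.1 hz
      exact hyE (hkey y hyL z hzL hzE hyz)
    have hcov : S ⊆ U1 ∪ U2 := by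
      intro z hz
      by_cases hzE : EE L (icomp L) Y z
      · exact Or.inl (Set.mem_iUnion.2 ⟨⟨z, hSL z hz, hzE⟩, hself z⟩)
      · exact Or.inr (Set.mem_iUnion.2 ⟨⟨z, hSL z hz, hzE⟩, hself z⟩)
    have hkh : k * h ∈ L := L.mul_mem (icomp_le L hk) hh
    have hkE : EE L (icomp L) Y (k * h) := ⟨1, (icomp L).one_mem, by simpa using hN⟩
    have hne1 : (S ∩ U1).Nonempty :=
      ⟨k * h, ⟨k, hk, rfl⟩, Set.mem_iUnion.2 ⟨⟨k * h, hkh, hkE⟩, hself _⟩⟩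
    have hhS : h ∈ S := ⟨1, (icomp L).one_mem, by simp⟩
    by_contra hnE
    have hne2 : (S ∩ U2).Nonempty :=
      ⟨h, hhS, Set.mem_iUnion.2 ⟨⟨h, hh, hnE⟩, hself _⟩⟩
    obtain ⟨z, hzS, hz1, hz2⟩ := hS U1 U2 hU1 hU2 hcov hne1 hne2
    exact hU2L z hz2 (hSL z hzS) (hU1L z hz1 (hSL z hzS))
  obtain ⟨k, hk, hN⟩ := hEE
  have hkL := icomp_le L hk
  refine ⟨cj k⁻¹ Y, lie_cj (L.inv_mem hkL) hYL, RegL_cj hY (L.inv_mem hkL), ?_⟩
  have h1 := Nz_cj (L.inv_mem hkL) hN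
  rw [show k⁻¹ * (k * h * k⁻¹) * k⁻¹⁻¹ = h by group] at h1
  exact h1

end Pool.Agent.W327.TIG
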