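import Mathlib
import Pool.Agent.Helper472.Lat_PW
import Pool.Agent.Helper472.Lat_CORE
import Pool.Agent.W327.TIGa
import Pool.Agent.W327.TIGf

set_option autoImplicit false

namespace Pool.Agent.W327.TIG

open Pool.LatH472 Matrix

section lin

variable {ι : Type} [Fintype ι] [DecidableEq ι]

/-- the normaliser, as a subgroup -/
noncomputable def NN (L : Subgroup (Matrix.unitaryGroup ι ℂ)) (Y : Matrix ι ι ℂ) :
    Subgroup (Matrix.unitaryGroup ι ℂ) where
  carrier := {g | g ∈ L ∧ Nz L Y g}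
  mul_mem' := by
    rintro a b ⟨ha, ha'⟩ ⟨hb, hb'⟩
    refine ⟨L.mul_mem ha hb, fun W hW hWY => ⟨?_, ?_⟩⟩
    · rw [cj_mul]
      exact (ha' _ (lie_cj hb hW) (hb' W hW hWY).1).1
    · rw [_root_.mul_inv_rev, cj_mul]
      exact (hb' _ (lie_cj (L.inv_mem ha) hW) (ha' W hW hWY).2).2
  one_mem' := ⟨L.one_mem, fun W hW hWY => by rw [inv_one, cj_one]; exact ⟨hWY, hWY⟩⟩
  inv_mem' := by
    rintro a ⟨ha, ha'⟩
    refine ⟨L.inv_mem ha, fun W hW hWY => ?_⟩
    rw [inv_inv]
    exact ⟨(ha' W hW hWY).2, (ha' W hW hWY).1⟩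

section frob
set_option backward.isDefEq.respectTransparency false
open scoped Matrix.Norms.Frobenius

theorem deriv_comm {X Y : Matrix ι ι ℂ}
    (h : ∀ t : ℝ, (NormedSpace.exp (t • X) * Y * NormedSpace.exp (t • (-X))) * Y =
      Y * (NormedSpace.exp (t • X) * Y * NormedSpace.exp (t • (-X)))) :
    (X * Y - Y * X) * Y = Y * (X * Y - Y * X) := by
  have h1 := (deriv_cj Y X).mul_const Y
  have h2 := (deriv_cj Y X).const_mul Y
  have h3 : (fun t : ℝ => NormedSpace.exp (t • X) * Y * NormedSpace.exp (t • (-X)) * Y) =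
      fun t : ℝ => Y * (NormedSpace.exp (t • X) * Y * NormedSpace.exp (t • (-X))) := funext h
  rw [h3] at h1
  exact h1.unique h2

end frob

theorem lie_abelian (L : Subgroup (Matrix.unitaryGroup ι ℂ))
    (hL : IsClosed (L : Set (Matrix.unitaryGroup ι ℂ)))
    (hT : ∀ M : Subgroup (Matrix.unitaryGroup ι ℂ), IsClosed (M : Set (Matrix.unitaryGroup ι ℂ)) →
      M ≤ L → (∀ x ∈ L, ∃ g ∈ L, g * x * g⁻¹ ∈ M) → L ≤ M) :
    ∀ X ∈ LieAlg L, ∀ X' ∈ LieAlg L, X * X' = X' * X := by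
  obtain ⟨Y, hYL, hYr⟩ := exists_reg (lie L hL) (fun X hX => hX.1)
  have hY : RegL L Y := fun W hW hWY W' hW' hWY' => hYr W ⟨hW, hWY⟩ W' ⟨hW', hWY'⟩
  have hlie : ∀ X ∈ LieAlg L, X ∈ LieAlg (icomp L) := fun X hX => icomp_lie L hX
  have hLM : L ≤ NN L Y := by
    apply hT
    · exact hL.inter (Nz_closed L Y)
    · exact fun g hg => hg.1
    · intro x hx
      obtain ⟨R, hR, hRr, hRn⟩ := stab_all _ L hL rfl x hx
      obtain ⟨k, hk, hkN⟩ := EE_of (icomp_closed L hL) (icomp_le L) hlie hYL hR hY hRr hx hRn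
      have hkL := icomp_le L hk
      exact ⟨k, hkL, L.mul_mem (L.mul_mem hkL hx) (L.inv_mem hkL), hkN⟩
  have hcomm : ∀ X ∈ LieAlg L, X * Y = Y * X := by
    intro X hX
    have h1 : (X * Y - Y * X) * Y = Y * (X * Y - Y * X) := by
      apply deriv_comm
      intro t
      obtain ⟨e, he, hee⟩ := hX.2 t
      have hinv := TTL_inv_val (t • X)
        (by rw [Matrix.conjTranspose_smul, hX.1, smul_neg]; simp) e hee
      have h2 := ((hLM he).2 Y hYL rfl).1
      unfold cj at h2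
      rw [hinv, hee, ← smul_neg] at h2
      exact h2
    have h2 : ad Y (ad Y X) = 0 := by
      have e : ad Y X = -(X * Y - Y * X) := by rw [ad_apply]; abel
      rw [e, map_neg, ad_apply, h1, sub_self, neg_zero]
    have h3 := ad_semi hYL.1 X h2
    rw [ad_apply, sub_eq_zero] at h3
    exact h3.symm
  intro X hX X' hX'
  exact hY X hX (hcomm X hX) X' hX' (hcomm X' hX')

end lin

/-- the hard direction -/
theorem hard (G : Type) [Group G] [TopologicalSpace G] [IsTopologicalGroup G] [CompactSpace G]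
    [T2Space G]
    (hT : ∀ H : Subgroup G, IsClosed (H : Set G) → (∀ x : G, ∃ g : G, g * x * g⁻¹ ∈ H) → H = ⊤) :
    ∀ a ∈ Subgroup.connectedComponentOfOne G, ∀ b ∈ Subgroup.connectedComponentOfOne G,
      a * b = b * a := by
  intro a ha b hb
  by_contra hab
  have hne : a * b * a⁻¹ * b⁻¹ ≠ 1 := by
    intro h
    apply hab
    have h1 : a * b * a⁻¹ = b := by
      have := mul_eq_one_iff_eq_inv.1 h
      rwa [inv_inv] at this
    exact mul_inv_eq_iff_eq_mul.1 h1
  obtain ⟨ι, _, _, ρ, hρ, hρne⟩ := PW G _ hne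
  have hLc : IsClosed (ρ.range : Set (Matrix.unitaryGroup ι ℂ)) := by
    have : (ρ.range : Set (Matrix.unitaryGroup ι ℂ)) = Set.range ρ := MonoidHom.coe_range ρ
    rw [this]
    exact (isCompact_range hρ).isClosed
  have habel := lie_abelian ρ.range hLc (by
    intro M hM hML hMc
    have h1 : M.comap ρ = ⊤ := by
      apply hT
      · exact hM.preimage hρ
      · intro x
        obtain ⟨_, ⟨g, rfl⟩, hg⟩ := hMc (ρ x) ⟨x, rfl⟩
        refine ⟨g, ?_⟩
        show ρ (g * x * g⁻¹) ∈ M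
        rw [map_mul, map_mul, map_inv]
        exact hg
    rintro _ ⟨x, rfl⟩
    have : x ∈ M.comap ρ := by rw [h1]; trivial
    exact this)
  have hCc := icomp_closed ρ.range hLc
  have hconn : IsConnected (icomp ρ.range : Set (Matrix.unitaryGroup ι ℂ)) :=
    ⟨⟨1, (icomp ρ.range).one_mem⟩, icomp_conn _⟩
  have hmem : ∀ c ∈ Subgroup.connectedComponentOfOne G, ρ c ∈ icomp ρ.range := by
    intro c hc
    let f : G → ρ.range := fun x => ⟨ρ x, ⟨x, rfl⟩⟩
    have hf : Continuous f := Continuous.subtype_mk hρ _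
    have h1 := hf.image_connectedComponent_subset (1 : G)
    have h2 : f 1 = 1 := Subtype.ext (map_one ρ)
    rw [h2] at h1
    exact ⟨f c, h1 ⟨c, hc, rfl⟩, rfl⟩
  have hexp : ∀ c ∈ icomp ρ.range, ∃ X ∈ LieAlg ρ.range, NormedSpace.exp X = (c : Matrix ι ι ℂ) := by
    intro c hc
    obtain ⟨X, hX, hXe⟩ := TTL CST1 (CST2 CST1) ι (icomp ρ.range) hCc hconn c hc
    refine ⟨X, ⟨hX.1, fun t => ?_⟩, hXe⟩
    obtain ⟨u, hu, hue⟩ := hX.2 t
    exact ⟨u, icomp_le _ hu, hue⟩
  obtain ⟨X, hX, hXe⟩ := hexp _ (hmem a ha)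
  obtain ⟨X', hX', hXe'⟩ := hexp _ (hmem b hb)
  have hc := habel X hX X' hX'
  have h1 : (ρ a : Matrix ι ι ℂ) * (ρ b : Matrix ι ι ℂ) = (ρ b : Matrix ι ι ℂ) * (ρ a : Matrix ι ι ℂ) := by
    rw [← hXe, ← hXe']
    exact exp_comm (exp_comm hc.symm).symm
  apply hρne
  rw [map_mul, map_mul, map_mul, map_inv, map_inv]
  have h2 : ρ a * ρ b = ρ b * ρ a := Subtype.ext h1
  rw [h2]
  group

theorem tig_iff (G : Type) [Group G] [TopologicalSpace G] [IsTopologicalGroup G] [CompactSpace G]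
    [T2Space G] :
    (∀ f : G → G,
      (Subgroup.closure (Set.range (fun x : G => f x * x * (f x)⁻¹))).topologicalClosure = ⊤) ↔
    ∃ N : Subgroup G, N.Normal ∧ IsClosed (N : Set G) ∧ IsConnected (N : Set G) ∧
      (∀ a ∈ N, ∀ b ∈ N, a * b = b * a) ∧ TotallyDisconnectedSpace (G ⧸ N) := by
  constructor
  · intro h
    have hT : ∀ H : Subgroup G, IsClosed (H : Set G) → (∀ x : G, ∃ g : G, g * x * g⁻¹ ∈ H) → H = ⊤ := by
      intro H hH hx
      choose f hf using hx
      have h1 := h f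
      have h2 : (Subgroup.closure (Set.range (fun x : G => f x * x * (f x)⁻¹))).topologicalClosure ≤ H := by
        apply Subgroup.topologicalClosure_minimal _ _ hH
        rw [Subgroup.closure_le]
        rintro _ ⟨x, rfl⟩
        exact hf x
      rw [h1] at h2
      exact top_le_iff.1 h2
    refine ⟨Subgroup.connectedComponentOfOne G, G3_normal G, isClosed_connectedComponent,
      isConnected_connectedComponent, hard G hT, ?_⟩
    have := G3_normal G
    apply G3_td
    intro g hg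
    obtain ⟨W, hW, hgW⟩ := CORE_sep G g hg
    exact ⟨W.1, hW, CORE_le G W hW, hgW⟩
  · rintro ⟨N, hN, hNc, _, hab, htd⟩ f
    apply easy G N hNc hab htd
    · exact Subgroup.isClosed_topologicalClosure _
    · intro x
      exact ⟨f x, Subgroup.le_topologicalClosure _ (Subgroup.subset_closure ⟨x, rfl⟩)⟩

end Pool.Agent.W327.TIG
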