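import Pool.Agent.W202.AH.Stm

/-! # AHP-4: the low frequencies -/

set_option autoImplicit false

open Complex Filter Topology Set MeasureTheory

namespace Pool.Agent.W327.AHP4

open H177.Lat W202.AH
open H370 hiding PP QQ
open H370.A3 SP H370.A2
open SG (ord NZ zmult ZS)

lemma PP_QQ (hRH : RiemannHypothesis) {A B : ℝ} (hA : 1 ≤ A) {e τ μ : ℝ} (T : ℝ) (he : 0 < e)
    (h1 : e ≤ τ) (h2 : τ + e ≤ μ) :
    PP (fun x => tri e (x - τ)) μ A B (Real.log T) = QQ T A B e τ := by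
  rw [PP_conv hRH hA]
  unfold QQ
  refine Finset.sum_congr rfl fun n _ => Finset.sum_congr rfl fun n' _ => ?_
  rw [RR_tri1 he h1 h2, mul_comm]
  rfl

/-- the pair sum at a centre `τ ≥ e` -/
lemma smooth1 (hRH : RiemannHypothesis) {e τ μ η0 ε : ℝ} (he : 0 < e) (h1 : e ≤ τ)
    (h2 : τ + e ≤ μ) (hη0 : 0 < η0) (hη1 : η0 < 1) (hμ : 2 * μ < 1 + η0) (hε : 0 < ε) :
    ∃ δ : ℝ, 0 < δ ∧ ∃ T0 : ℝ, 10 ≤ T0 ∧ ∀ T : ℝ, T0 ≤ T → ∀ H : ℝ, T ^ η0 ≤ H → H ≤ T / 8 →
      volume {t : ℝ | t ∈ Set.Icc T (2 * T) ∧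
        ¬ (|QQ T t (t + H) e τ - (H * Real.log T / (2 * Real.pi)) * (τ * e)| ≤
            ε * (H * Real.log T / (2 * Real.pi)))} ≤ ENNReal.ofReal (T ^ (1 - δ)) := by
  obtain ⟨δ, hδ, T1, hT1, hP⟩ := almost_smooth hRH η0 μ ε hη0 hη1 (by linarith)
    hμ hε (fun x => tri e (x - τ)) (1 / e)
    (fun x y => by
      have h3 := tri_lip he (x - τ) (y - τ)
      have e1 : x - τ - (y - τ) = x - y := by ring
      rw [e1] at h3
      exact h3)
    (tri1_zero he h1 h2) (1 / e) (fun x => by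
      rw [RR_tri1 he h1 h2, abs_mul, abs_of_nonneg (KK_nonneg he x)]
      have h3 := KK_sq he x
      have h4 := Real.abs_cos_le_one (2 * Real.pi * τ * x)
      have h5 : 0 ≤ KK e x * x ^ 2 := mul_nonneg (KK_nonneg he x) (sq_nonneg _)
      calc |Real.cos (2 * Real.pi * τ * x)| * KK e x * x ^ 2 =
            |Real.cos (2 * Real.pi * τ * x)| * (KK e x * x ^ 2) := by ring
        _ ≤ 1 * (KK e x * x ^ 2) := mul_le_mul_of_nonneg_right h4 h5
        _ ≤ 1 / e := by linarith)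
  refine ⟨δ, hδ, T1, hT1, fun T hT H hH1 hH2 => (measure_mono ?_).trans (hP T hT H hH1 hH2)⟩
  rintro t ⟨ht1, ht2⟩
  refine ⟨ht1, fun hcon => ht2 ?_⟩
  have hA1 : 1 ≤ t := by linarith [ht1.1]
  rw [tri1_main he h1 h2, PP_QQ hRH hA1 T he h1 h2] at hcon
  exact hcon

lemma tri0_zero {e : ℝ} (he : 0 < e) (x : ℝ) (hx : 2 * e ≤ |x|) : tri e x = 0 :=
  tri_zero he (by linarith)

lemma RR_tri0 {e : ℝ} (he : 0 < e) (x : ℝ) : RR (tri e) (2 * e) x = KK e x := by
  unfold RR KK
  apply intervalIntegral.integral_eq_integral_of_support_subset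
  intro α hα
  by_contra h
  apply hα
  have : 2 * e ≤ |α| := by
    by_contra h2
    push Not at h2
    obtain ⟨h3, h4⟩ := abs_lt.1 h2
    exact h ⟨h3, h4.le⟩
  show tri e α * _ = 0
  rw [tri0_zero he α this, zero_mul]

lemma tri0_main {e : ℝ} (he : 0 < e) :
    tri e 0 + ∫ α in (-(2 * e))..(2 * e), |α| * tri e α ≤ 1 + 4 * e ^ 2 := by
  have h0 : tri e 0 = 1 := by
    rw [tri_in he (by rw [abs_zero]; exact he.le), abs_zero, zero_div, sub_zero]
  have h1 : ∫ α in (-(2 * e))..(2 * e), |α| * tri e α ≤ ∫ α in (-(2 * e))..(2 * e), e := by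
    apply intervalIntegral.integral_mono_on (by linarith)
    · exact (continuous_abs.mul (tri_cont e)).intervalIntegrable _ _
    · exact continuous_const.intervalIntegrable _ _
    · intro α _
      rcases le_or_gt e |α| with h | h
      · rw [tri_zero he h, mul_zero]
        exact he.le
      · rw [tri_in he h.le]
        have h3 : 0 ≤ |α| := abs_nonneg _
        have h4 : 0 ≤ |α| / e := by positivity
        nlinarith
  rw [intervalIntegral.integral_const, smul_eq_mul] at h1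
  rw [h0]
  nlinarith

/-- the pair sum at the centre `0` -/
lemma smooth0 (hRH : RiemannHypothesis) {e η0 ε : ℝ} (he : 0 < e) (hη0 : 0 < η0)
    (hη1 : η0 < 1) (hμ : 2 * (2 * e) < 1 + η0) (hε : 0 < ε) :
    ∃ δ : ℝ, 0 < δ ∧ ∃ T0 : ℝ, 10 ≤ T0 ∧ ∀ T : ℝ, T0 ≤ T → ∀ H : ℝ, T ^ η0 ≤ H → H ≤ T / 8 →
      volume {t : ℝ | t ∈ Set.Icc T (2 * T) ∧
        ¬ (QQ T t (t + H) e 0 ≤ (1 + 4 * e ^ 2 + ε) * (H * Real.log T / (2 * Real.pi)))} ≤
        ENNReal.ofReal (T ^ (1 - δ)) := by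
  obtain ⟨δ, hδ, T1, hT1, hP⟩ := almost_smooth hRH η0 (2 * e) ε hη0 hη1 (by linarith)
    hμ hε (tri e) (1 / e) (tri_lip he) (tri0_zero he) (1 / e) (fun x => by
      rw [RR_tri0 he, abs_of_nonneg (KK_nonneg he x)]
      exact KK_sq he x)
  refine ⟨δ, hδ, T1, hT1, fun T hT H hH1 hH2 => (measure_mono ?_).trans (hP T hT H hH1 hH2)⟩
  rintro t ⟨ht1, ht2⟩
  refine ⟨ht1, fun hcon => ht2 ?_⟩
  have hA1 : 1 ≤ t := by linarith [ht1.1]
  have hTpos : 0 < T := by linarith
  have hL : 0 < Real.log T := Real.log_pos (by linarith)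
  have hHpos : 0 < H := lt_of_lt_of_le (Real.rpow_pos_of_pos hTpos _) hH1
  have hPP : PP (tri e) (2 * e) t (t + H) (Real.log T) = QQ T t (t + H) e 0 := by
    rw [PP_conv hRH hA1]
    unfold QQ
    refine Finset.sum_congr rfl fun n _ => Finset.sum_congr rfl fun n' _ => ?_
    rw [RR_tri0 he, mul_zero, zero_mul, Real.cos_zero, mul_one]
    rfl
  rw [hPP] at hcon
  have h1 := (abs_le.1 hcon).2
  have h2 := tri0_main he
  set M : ℝ := H * Real.log T / (2 * Real.pi) with hM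
  have hM0 : 0 < M := by
    have := Real.pi_pos
    positivity
  have h3 := mul_le_mul_of_nonneg_left h2 hM0.le
  nlinarith

lemma ev_powq (η : ℝ) (hη : η < 1) (q : ℝ) (hq : 0 < q) : ∀ᶠ T : ℝ in atTop, T ^ η ≤ T / q := by
  have h1 : ∀ᶠ T : ℝ in atTop, q ≤ T ^ (1 - η) :=
    (tendsto_rpow_atTop (by linarith)).eventually_ge_atTop _
  filter_upwards [h1, eventually_gt_atTop 0] with T h1 h2
  have h3 : T ^ η * T ^ (1 - η) = T := by
    rw [← Real.rpow_add h2]
    have : η + (1 - η) = 1 := by ring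
    rw [this, Real.rpow_one]
  have h4 : 0 < T ^ η := Real.rpow_pos_of_pos h2 _
  rw [le_div_iff₀ hq]
  nlinarith

theorem low (hRH : RiemannHypothesis) : W202.AH.LowerLow := by
  intro e θ' lam he h1 h2 hlam δ' hδ'
  set μ : ℝ := θ' + e with hμ
  have hμ0 : 0 < μ := by linarith
  obtain ⟨δ, hδ, T1, hT1, hP⟩ := smooth1 hRH (μ := μ) (η0 := μ) (ε := (θ' - lam) * e) he h1 le_rfl
    hμ0 h2 (by linarith) (mul_pos (by linarith) he)
  obtain ⟨T2, hT2⟩ := (ev_powq μ h2 8 (by norm_num)).exists_forall_of_atTop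
  obtain ⟨T3, hT3⟩ := (ev_powq (1 - δ) (by linarith) 3 (by norm_num)).exists_forall_of_atTop
  obtain ⟨T4, hT4⟩ := (ev_powq (1 - δ') (by linarith) 3 (by norm_num)).exists_forall_of_atTop
  refine ⟨max (max T1 T2) (max T3 T4), fun T hT E hE => ?_⟩
  have g1 : T1 ≤ T := ((le_max_left _ _).trans (le_max_left _ _)).trans hT
  have g2 : T2 ≤ T := ((le_max_right _ _).trans (le_max_left _ _)).trans hT
  have g3 : T3 ≤ T := ((le_max_left _ _).trans (le_max_right _ _)).trans hT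
  have g4 : T4 ≤ T := ((le_max_right _ _).trans (le_max_right _ _)).trans hT
  have hTpos : 0 < T := by linarith
  by_contra hcon
  push Not at hcon
  have hP1 := hP T g1 (T / 8) (hT2 T g2) le_rfl
  have hsub : Set.Icc T (2 * T) ⊆ E ∪ {t : ℝ | t ∈ Set.Icc T (2 * T) ∧
        ¬ (|QQ T t (t + T / 8) e θ' - (T / 8 * Real.log T / (2 * Real.pi)) * (θ' * e)| ≤
            (θ' - lam) * e * (T / 8 * Real.log T / (2 * Real.pi)))} := by
    intro t ht
    by_cases htE : t ∈ E
    · exact Or.inl htE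
    · right
      refine ⟨ht, fun hc => ?_⟩
      have h3 := hcon t ht htE
      have h4 := (abs_le.1 hc).1
      push_cast at h3
      nlinarith
  have hvol : ENNReal.ofReal T ≤ ENNReal.ofReal (T ^ (1 - δ')) + ENNReal.ofReal (T ^ (1 - δ)) := by
    calc ENNReal.ofReal T = volume (Set.Icc T (2 * T)) := by
          rw [Real.volume_Icc]
          congr 1
          ring
      _ ≤ _ := (measure_mono hsub).trans ((measure_union_le _ _).trans (add_le_add hE hP1))
  rw [← ENNReal.ofReal_add (by positivity) (by positivity)] at hvol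
  have h5 := (ENNReal.ofReal_le_ofReal_iff (by positivity)).1 hvol
  have h6 := hT3 T g3
  have h7 := hT4 T g4
  linarith

theorem freq (hRH : RiemannHypothesis) : W202.AH.LowFreq := by
  intro e q he he2 hq
  have hqR : (8 : ℝ) ≤ q := by exact_mod_cast hq
  obtain ⟨δ, hδ, T1, hT1, hP⟩ := smooth1 hRH (e := e) (τ := 2 * e) (μ := 3 * e) (η0 := 1 / 2)
    (ε := e ^ 2) he (by linarith) (by linarith) (by norm_num) (by norm_num) (by linarith)
    (by positivity)
  obtain ⟨δ', hδ', T2, hT2, hP'⟩ := smooth0 hRH (e := e) (η0 := 1 / 2)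
    (ε := 1 / 4) he (by norm_num) (by norm_num) (by linarith) (by norm_num)
  obtain ⟨T3, hT3⟩ := (ev_powq (1 / 2) (by norm_num) q (by linarith)).exists_forall_of_atTop
  set δm : ℝ := min δ δ' with hδm
  have hδm0 : 0 < δm := lt_min hδ hδ'
  obtain ⟨T6, hT6⟩ := ((tendsto_rpow_atTop (by positivity : (0 : ℝ) < δm / 2)).eventually_ge_atTop
    2).exists_forall_of_atTop
  refine ⟨δm / 2, max 100 (max (max T1 T2) (max T3 T6)), by positivity, le_max_left _ _,
    fun T hT => ?_⟩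
  have g0 : 100 ≤ T := (le_max_left _ _).trans hT
  have hT' := (le_max_right _ _).trans hT
  have g1 : T1 ≤ T := ((le_max_left _ _).trans (le_max_left _ _)).trans hT'
  have g2 : T2 ≤ T := ((le_max_right _ _).trans (le_max_left _ _)).trans hT'
  have g3 : T3 ≤ T := ((le_max_left _ _).trans (le_max_right _ _)).trans hT'
  have g6 : T6 ≤ T := ((le_max_right _ _).trans (le_max_right _ _)).trans hT'
  have hTpos : 0 < T := by linarith
  set H : ℝ := T / q with hH
  have hH1 : T ^ (1 / 2 : ℝ) ≤ H := hT3 T g3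
  have hH2 : H ≤ T / 8 := by
    rw [hH]
    gcongr
  have hunion : ENNReal.ofReal (T ^ (1 - δ)) + ENNReal.ofReal (T ^ (1 - δ')) ≤
      ENNReal.ofReal (T ^ (1 - δm / 2)) := by
    rw [← ENNReal.ofReal_add (by positivity) (by positivity)]
    apply ENNReal.ofReal_le_ofReal
    have f1 : T ^ (1 - δ) ≤ T ^ (1 - δm) :=
      Real.rpow_le_rpow_of_exponent_le (by linarith) (by linarith [min_le_left δ δ'])
    have f2 : T ^ (1 - δ') ≤ T ^ (1 - δm) :=
      Real.rpow_le_rpow_of_exponent_le (by linarith) (by linarith [min_le_right δ δ'])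
    have f3 : T ^ (1 - δm / 2) = T ^ (1 - δm) * T ^ (δm / 2) := by
      rw [← Real.rpow_add hTpos]
      congr 1
      ring
    have f4 := hT6 T g6
    have f5 : 0 < T ^ (1 - δm) := Real.rpow_pos_of_pos hTpos _
    rw [f3]
    nlinarith
  refine le_trans ?_ (le_trans (add_le_add (hP T g1 H hH1 hH2) (hP' T g2 H hH1 hH2)) hunion)
  refine (measure_mono ?_).trans (measure_union_le _ _)
  rintro t ⟨ht1, ht2⟩
  by_contra hnotin
  rw [Set.mem_union, not_or] at hnotin
  obtain ⟨hn1, hn2⟩ := hnotin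
  apply ht2
  have hL : 0 < Real.log T := Real.log_pos (by linarith)
  have hHpos : 0 < H := by positivity
  set M : ℝ := H * Real.log T / (2 * Real.pi) with hM
  have hM0 : 0 < M := by
    have := Real.pi_pos
    positivity
  constructor
  · have hc : |QQ T t (t + H) e (2 * e) - M * (2 * e * e)| ≤ e ^ 2 * M := by
      by_contra hc
      exact hn1 ⟨ht1, hc⟩
    have h1 := (abs_le.1 hc).2
    nlinarith
  · have hc : QQ T t (t + H) e 0 ≤ (1 + 4 * e ^ 2 + 1 / 4) * M := by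
      by_contra hc
      exact hn2 ⟨ht1, hc⟩
    have h1 : e ^ 2 ≤ (1 / 16) ^ 2 := by gcongr
    have h2 : (1 + 4 * e ^ 2 + 1 / 4) * M ≤ 2 * M := by
      apply mul_le_mul_of_nonneg_right _ hM0.le
      linarith
    linarith

end Pool.Agent.W327.AHP4
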