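import Mathlib
import Pool.Agent.W894.HT.MLib
import Pool.Agent.W352.HTCh3

/-!
# HN-LUCAS: residues modulo prime powers from residues modulo the prime
-/

set_option autoImplicit false

namespace Pool.Agent.W327.HNLucas

open Pool.Agent.NPC Pool.Agent.NPC.Cnt Pool.Agent.W894.HT

theorem poly_of_fp {f : List Bool → ℕ} (hf : FP f) : Poly f := by
  have h1 : Poly (fun x : List Bool => (f x).bits) :=
    Pool.Agent.NPC.W352HTCh3.polyV (V := fun x => (f x).bits) hf Poly.id
  have h2 : Poly (fun x : List Bool => valB ((f x).bits)) := Poly.valBits h1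
  exact h2.congr fun x => valB_bits _

theorem lucas (p : ℕ) (hp : p.Prime) (k n : ℕ) : n / p ^ k % p = n.choose (p ^ k) % p := by
  have := Fact.mk hp
  induction k generalizing n with
  | zero => simp
  | succ k ih =>
    have h1 := @Choose.choose_modEq_choose_mod_mul_choose_div_nat n (p ^ (k + 1)) p _
    have h2 : p ^ (k + 1) % p = 0 := by rw [pow_succ]; exact Nat.mul_mod_left _ _
    have h3 : p ^ (k + 1) / p = p ^ k := by rw [pow_succ]; exact Nat.mul_div_cancel _ hp.pos
    rw [h2, h3, Nat.choose_zero_right, one_mul] at h1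
    have h4 : n.choose (p ^ (k + 1)) % p = (n / p).choose (p ^ k) % p := h1
    rw [h4, ← ih (n / p), Nat.div_div_eq_div_mul, pow_succ']

theorem digit (p : ℕ) (k n : ℕ) :
    n % p ^ (k + 1) = n % p ^ k + p ^ k * (n / p ^ k % p) := by
  rw [pow_succ, Nat.mod_mul]

theorem main (h : S_CHK) : S_LUCAS := by
  intro p hp hF k
  induction k with
  | zero =>
    intro f hf
    have h1 : (fun x => f x % p ^ 0) = fun _ => 0 := by
      funext x
      simp [Nat.mod_one]
    rw [h1]
    exact Pool.Agent.NPC.H549Convex.fp_of_poly (Pool.Agent.NPC.Poly.const 0)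
  | succ k ih =>
    intro f hf
    have h1 : Poly (fun x => f x % p ^ k) := poly_of_fp (ih f hf)
    have h2 : Poly (fun x => (f x).choose (p ^ k) % p) := poly_of_fp (hF _ (h (p ^ k) f hf))
    have h3 : Poly (fun x => f x % p ^ (k + 1)) := by
      refine (Pool.Agent.NPC.Poly.add h1 (Pool.Agent.NPC.Poly.mul (Pool.Agent.NPC.Poly.const (p ^ k)) h2)).congr fun x => ?_
      rw [digit, lucas p hp]
    exact Pool.Agent.NPC.H549Convex.fp_of_poly h3

end Pool.Agent.W327.HNLucas
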