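import Mathlib
import Pool.Agent.W894.HT.Defs

/-!
# Project HT, piece COUNT: signed sums of paths are numbers of paths modulo two
-/

namespace Pool.Agent.W327.HTCount

open Pool.Agent.W894.HT

/-- the chain condition -/
def Cc (F : ℕ → ℕ → Bool) (x e : ℕ) (l : List ℕ) : Prop :=
  (x :: (l ++ [e])).IsChain (fun u v => F u v = true)

lemma phi_cases {A : Type} [CommRing A] (F : ℕ → ℕ → Bool) (x y : ℕ) :
    (F x y = true ∧ ∃ c : A, (phi F x y : A) = 1 + 2 * c) ∨
      (F x y ≠ true ∧ (phi F x y : A) = 0) := by
  by_cases h : F x y = true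
  · left
    refine ⟨h, ?_⟩
    by_cases h2 : x < y
    · refine ⟨-1, ?_⟩
      simp only [phi, h, h2, if_true]
      ring
    · refine ⟨0, ?_⟩
      simp [phi, h, h2]
  · right
    exact ⟨h, by simp [phi, h]⟩

lemma wtp_cases {A : Type} [CommRing A] (F : ℕ → ℕ → Bool) (e : ℕ) :
    ∀ (l : List ℕ) (x : ℕ), (Cc F x e l ∧ ∃ c : A, wtp (phi F) e x l = 1 + 2 * c) ∨
      (¬ Cc F x e l ∧ (wtp (phi F) e x l : A) = 0)
  | [], x => by
    rcases phi_cases (A := A) F x e with ⟨h, c, hc⟩ | ⟨h, hc⟩
    · left
      refine ⟨?_, c, hc⟩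
      simp [Cc, h]
    · right
      refine ⟨?_, hc⟩
      simpa [Cc] using h
  | v :: l, x => by
    have key : Cc F x e (v :: l) ↔ (F x v = true ∧ Cc F v e l) := by
      simp [Cc]
    rcases phi_cases (A := A) F x v with ⟨h, c, hc⟩ | ⟨h, hc⟩
    · rcases wtp_cases (A := A) F e l v with ⟨h2, c2, hc2⟩ | ⟨h2, hc2⟩
      · left
        refine ⟨key.2 ⟨h, h2⟩, c + c2 + 2 * c * c2, ?_⟩
        simp only [wtp, hc, hc2]
        ring
      · right
        refine ⟨fun h3 => h2 (key.1 h3).2, ?_⟩
        simp only [wtp, hc2, mul_zero]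
    · right
      refine ⟨fun h3 => h (key.1 h3).1, ?_⟩
      simp only [wtp, hc, zero_mul]

open Classical in
lemma sum_cases {A : Type} [CommRing A] (F : ℕ → ℕ → Bool) (x e : ℕ) :
    ∀ (L : List (List ℕ)), ∃ c : A, (L.map fun l => wtp (phi F) e x l).sum =
      (((L.filter fun l => decide (Cc F x e l)).length : ℕ) : A) + 2 * c
  | [] => ⟨0, by simp⟩
  | l :: L => by
    obtain ⟨c, hc⟩ := sum_cases (A := A) F x e L
    rcases wtp_cases (A := A) F e l x with ⟨h, c2, hc2⟩ | ⟨h, hc2⟩
    · refine ⟨c + c2, ?_⟩
      rw [List.map_cons, List.sum_cons, hc, hc2, List.filter_cons_of_pos (by simpa using h),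
        List.length_cons]
      push_cast
      ring
    · refine ⟨c, ?_⟩
      rw [List.map_cons, List.sum_cons, hc, hc2, List.filter_cons_of_neg (by simpa using h)]
      ring

lemma sub_filter {S V : List ℕ} (h : S.Sublist V) (hV : V.Nodup) :
    S = V.filter (fun v => decide (v ∈ S)) := by
  induction h with
  | slnil => rfl
  | @cons S V a h ih =>
    have ha : a ∉ V := (List.nodup_cons.1 hV).1
    have ha2 : a ∉ S := fun h2 => ha (h.subset h2)
    rw [List.filter_cons_of_neg (by simpa using ha2)]
    exact ih (List.nodup_cons.1 hV).2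
  | @cons_cons S V a h ih =>
    have ha : a ∉ V := (List.nodup_cons.1 hV).1
    rw [List.filter_cons_of_pos (by simp)]
    congr 1
    rw [ih (List.nodup_cons.1 hV).2]
    apply List.filter_congr
    intro v hv
    have hva : v ≠ a := fun h3 => ha (h3 ▸ hv)
    rw [← ih (List.nodup_cons.1 hV).2]
    simp [hva]

lemma nodup_L {V : List ℕ} (hV : V.Nodup) :
    (V.sublists'.flatMap List.permutations').Nodup := by
  rw [List.nodup_flatMap]
  constructor
  · intro S hS
    rw [List.mem_sublists'] at hS
    exact (List.permutations_perm_permutations' S).nodup_iff.1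
      (List.nodup_permutations S (hS.nodup hV))
  · have h1 : V.sublists'.Nodup := List.nodup_sublists'.2 hV
    have h2 : V.sublists'.Pairwise (fun a b => a ≠ b) := h1
    refine List.Pairwise.imp_of_mem ?_ h2
    intro S T hS hT hST
    rw [List.mem_sublists'] at hS hT
    intro l hl1 hl2
    rw [List.mem_permutations'] at hl1 hl2
    apply hST
    rw [sub_filter hS hV, sub_filter hT hV]
    apply List.filter_congr
    intro v _
    have : (v ∈ S ↔ v ∈ T) := by rw [← hl1.mem_iff, ← hl2.mem_iff]
    simp [this]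

lemma mem_L {V : List ℕ} (hV : V.Nodup) (l : List ℕ) :
    l ∈ V.sublists'.flatMap List.permutations' ↔ l.Nodup ∧ ∀ v ∈ l, v ∈ V := by
  rw [List.mem_flatMap]
  constructor
  · rintro ⟨S, hS, hl⟩
    rw [List.mem_sublists'] at hS
    rw [List.mem_permutations'] at hl
    exact ⟨hl.nodup_iff.2 (hS.nodup hV), fun v hv => hS.subset (hl.mem_iff.1 hv)⟩
  · rintro ⟨h1, h2⟩
    refine ⟨V.filter (fun v => decide (v ∈ l)), ?_, ?_⟩
    · rw [List.mem_sublists']
      exact List.filter_sublist
    · rw [List.mem_permutations']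
      rw [List.perm_ext_iff_of_nodup h1 (hV.filter _)]
      intro v
      rw [List.mem_filter]
      constructor
      · intro hv
        exact ⟨h2 v hv, by simpa using hv⟩
      · rintro ⟨_, hv⟩
        simpa using hv

open Classical in
theorem main : S_COUNT := by
  intro A _ F x e V hV
  obtain ⟨c, hc⟩ := sum_cases (A := A) F x e (V.sublists'.flatMap List.permutations')
  refine ⟨c, ?_⟩
  have h1 : (PP (phi F) x e V : A) =
      ((V.sublists'.flatMap List.permutations').map fun l => wtp (phi F) e x l).sum := by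
    unfold PP
    generalize V.sublists' = M
    induction M with
    | nil => rfl
    | cons a M ih =>
      rw [List.map_cons, List.sum_cons, List.flatMap_cons, List.map_append, List.sum_append, ih]
  rw [h1, hc]
  have hnd : ((V.sublists'.flatMap List.permutations').filter
      fun l => decide (Cc F x e l)).Nodup := (nodup_L hV).filter _
  have h2 : Nat.card {l : List ℕ // l.Nodup ∧ (∀ v ∈ l, v ∈ V) ∧
      (x :: (l ++ [e])).IsChain (fun u v => F u v = true)} =
      ((V.sublists'.flatMap List.permutations').filter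
        fun l => decide (Cc F x e l)).length := by
    rw [← List.toFinset_card_of_nodup hnd]
    apply Nat.subtype_card
    intro l
    rw [List.mem_toFinset, List.mem_filter, mem_L hV, decide_eq_true_eq, and_assoc]
    rfl
  rw [h2]

end Pool.Agent.W327.HTCount
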