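import Mathlib

/-!
# An ideal whose two corners are nil of bounded index is nil
-/

set_option autoImplicit false

namespace Pool.Agent.W327.KCCorner

open Polynomial

/-- Gaussian elimination with respect to an idempotent. -/
theorem left_inv {A : Type*} [Ring A] (E x : A) (hE : E * E = E)
    (h1 : IsNilpotent (E * x * E))
    (h2 : ∀ b : A, IsNilpotent ((1 - E) * (x + x * b) * (1 - E))) :
    ∃ g : A, g * (1 - x) = 1 := by
  obtain ⟨u, hu⟩ := h1.isUnit_one_sub
  set v : A := ↑u⁻¹ with hv
  have hv1 : v * (1 - E * x * E) = 1 := by rw [← hu, hv]; exact u.inv_mul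
  have hv2 : (1 - E * x * E) * v = 1 := by rw [← hu, hv]; exact u.mul_inv
  set E' : A := 1 - E with hE'
  have e1 : E * E' = 0 := by rw [hE', mul_sub, mul_one, hE, sub_self]
  have e2 : E' * E = 0 := by rw [hE', sub_mul, one_mul, hE, sub_self]
  have e3 : E' * E' = E' := by rw [hE', mul_sub, mul_one, ← hE', e2, sub_zero]
  have hvE' : v * E' = E' := by
    have : (1 - E * x * E) * E' = E' := by
      rw [sub_mul, one_mul, mul_assoc, e1, mul_zero, sub_zero]
    calc v * E' = v * ((1 - E * x * E) * E') := by rw [this]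
      _ = (v * (1 - E * x * E)) * E' := (mul_assoc _ _ _).symm
      _ = E' := by rw [hv1, one_mul]
  have hE'v : E' * v = E' := by
    have : E' * (1 - E * x * E) = E' := by
      rw [mul_sub, mul_one, ← mul_assoc, ← mul_assoc, e2, zero_mul, zero_mul, sub_zero]
    calc E' * v = (E' * (1 - E * x * E)) * v := by rw [this]
      _ = E' * ((1 - E * x * E) * v) := mul_assoc _ _ _
      _ = E' := by rw [hv2, mul_one]
  have hEE' : E = 1 - E' := by rw [hE']; abel
  have hcomm : E * v = v * E := by
    rw [hEE', sub_mul, mul_sub, one_mul, mul_one, hvE', hE'v]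
  set b : A := v * E * x * E' with hb
  have hEb : E * b = b := by
    calc E * b = (E * v) * E * x * E' := by rw [hb]; noncomm_ring
      _ = v * (E * E) * x * E' := by rw [hcomm]; noncomm_ring
      _ = b := by rw [hE, hb]
  have hbE' : b * E' = b := by
    calc b * E' = v * E * x * (E' * E') := by rw [hb]; noncomm_ring
      _ = b := by rw [e3, hb]
  have hbb : b * b = 0 := by
    calc b * b = (b * E') * (E * b) := by rw [hEb, hbE']
      _ = b * (E' * E) * b := by noncomm_ring
      _ = 0 := by rw [e2, mul_zero, zero_mul]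
  set y : A := E' * x with hy
  have hEy : E * y = 0 := by rw [hy, ← mul_assoc, e1, zero_mul]
  have s1 : v * (1 - x) = 1 - b - y := by
    have hx : x = E * x * E + E * x * E' + E' * x := by
      have : E * x * E + E * x * E' + E' * x = E * x * (E + E') + E' * x := by noncomm_ring
      rw [this]
      have h3 : E + E' = 1 := by rw [hE']; abel
      rw [h3, mul_one, ← add_mul, h3, one_mul]
    calc v * (1 - x) = v * (1 - (E * x * E + E * x * E' + E' * x)) := by rw [← hx]
      _ = v * (1 - E * x * E) - v * E * x * E' - (v * E') * x := by noncomm_ring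
      _ = 1 - b - y := by rw [hv1, hvE']
  set c : A := E' * (x + x * b) * E' with hc
  have hc' : c = y * E' + y * b := by
    calc c = (E' * x) * E' + (E' * x) * (b * E') := by rw [hc]; noncomm_ring
      _ = y * E' + y * b := by rw [hbE', hy]
  have s2 : (1 + y * E) * (1 - b - y) = 1 - b - c := by
    calc (1 + y * E) * (1 - b - y) = 1 - b - y + y * E - y * (E * b) - y * (E * y) := by
          noncomm_ring
      _ = 1 - b - y * (1 - E) - y * b := by rw [hEb, hEy]; noncomm_ring
      _ = 1 - b - c := by rw [hc', ← hE']; abel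
  obtain ⟨u2, hu2⟩ := (h2 b).isUnit_one_sub
  set w : A := ↑u2⁻¹ with hw
  have hw1 : w * (1 - c) = 1 := by rw [hc, ← hu2, hw]; exact u2.inv_mul
  have hcE : c * E = 0 := by rw [hc, mul_assoc, e2, mul_zero]
  have hwE : w * E = E := by
    have : (1 - c) * E = E := by rw [sub_mul, one_mul, hcE, sub_zero]
    calc w * E = w * ((1 - c) * E) := by rw [this]
      _ = (w * (1 - c)) * E := (mul_assoc _ _ _).symm
      _ = E := by rw [hw1, one_mul]
  have hwb : w * b = b := by
    calc w * b = w * (E * b) := by rw [hEb]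
      _ = (w * E) * b := (mul_assoc _ _ _).symm
      _ = b := by rw [hwE, hEb]
  have s3 : w * (1 - b - c) = 1 - b := by
    calc w * (1 - b - c) = w * (1 - c) - w * b := by noncomm_ring
      _ = 1 - b := by rw [hw1, hwb]
  refine ⟨(1 + b) * w * (1 + y * E) * v, ?_⟩
  calc (1 + b) * w * (1 + y * E) * v * (1 - x)
      = (1 + b) * (w * ((1 + y * E) * (v * (1 - x)))) := by noncomm_ring
    _ = (1 + b) * (1 - b) := by rw [s1, s2, s3]
    _ = 1 - b * b := by noncomm_ring
    _ = 1 := by rw [hbb, sub_zero]

theorem poly_zero {F : Type*} [Field F] [Infinite F] {R : Type*} [Ring R] [Algebra F R]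
    (p : R[X]) (h : ∀ s : F, p.eval (algebraMap F R s) = 0) : p = 0 := by
  ext i
  rw [coeff_zero]
  rw [← Module.forall_dual_apply_eq_zero_iff F]
  intro l
  set q : F[X] := ∑ j ∈ Finset.range (p.natDegree + 1), C (l (p.coeff j)) * X ^ j with hq
  have hq0 : q = 0 := by
    apply Polynomial.funext
    intro s
    rw [eval_zero, hq, eval_finsetSum]
    have h1 := congrArg l (h s)
    rw [map_zero, eval_eq_sum_range, map_sum] at h1
    rw [← h1]
    apply Finset.sum_congr rfl
    intro j _
    rw [eval_mul, eval_C, eval_pow, eval_X, ← map_pow, ← Algebra.commutes, ← Algebra.smul_def,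
      map_smul, smul_eq_mul, mul_comm]
  have h2 : q.coeff i = 0 := by rw [hq0, coeff_zero]
  rw [hq, finsetSum_coeff] at h2
  simp only [coeff_C_mul, coeff_X_pow] at h2
  by_cases hi : i ∈ Finset.range (p.natDegree + 1)
  · rw [Finset.sum_eq_single i] at h2
    · simpa using h2
    · intro b _ hb
      rw [if_neg (Ne.symm hb), mul_zero]
    · intro hn
      exact absurd hi hn
  · have : p.coeff i = 0 := by
      apply coeff_eq_zero_of_natDegree_lt
      rw [Finset.mem_range] at hi
      omega
    rw [this, map_zero]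

theorem nil_of_corner {F : Type*} [Field F] [Infinite F] {R : Type*} [Ring R] [Algebra F R]
    (J : TwoSidedIdeal R) (e : R) (he : e * e = e) (n m : ℕ)
    (h1 : ∀ x ∈ J, (e * x * e) ^ n = 0)
    (h2 : ∀ x ∈ J, ((1 - e) * x * (1 - e)) ^ m = 0) : ∀ x ∈ J, IsNilpotent x := by
  have key : ∀ (d : R) (k : ℕ), (∀ x ∈ J, (d * x * d) ^ k = 0) →
      ∀ p : R[X], (∀ i, p.coeff i ∈ J) → (C d * p * C d) ^ k = 0 := by
    intro d k hd p hp
    apply poly_zero (F := F)
    intro s
    have hc : ∀ a : R, Commute ((RingHom.id R) a) (algebraMap F R s) := fun a =>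
      (Algebra.commutes s a).symm
    have hφ : ∀ q : R[X], q.eval (algebraMap F R s) =
        eval₂RingHom' (RingHom.id R) (algebraMap F R s) hc q := fun q => rfl
    rw [hφ, map_pow, map_mul, map_mul, ← hφ, ← hφ, eval_C]
    apply hd
    rw [eval_eq_sum_range]
    apply sum_mem
    intro i _
    exact J.mul_mem_right _ _ (hp i)
  intro f hf
  have hcoef : ∀ i, (C f * X : R[X]).coeff i ∈ J := by
    intro i
    rw [coeff_C_mul, coeff_X]
    exact J.mul_mem_right _ _ hf
  have hE : (C e : R[X]) * C e = C e := by rw [← C_mul, he]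
  have hone : (1 : R[X]) - C e = C (1 - e) := by rw [C_sub, C_1]
  obtain ⟨g, hg⟩ := left_inv (C e : R[X]) (C f * X) hE
    ⟨n, key e n h1 _ hcoef⟩ (by
      intro b
      rw [hone]
      refine ⟨m, key (1 - e) m h2 _ ?_⟩
      intro i
      rw [coeff_add]
      apply add_mem (hcoef i)
      rw [coeff_mul]
      apply sum_mem
      intro j _
      exact J.mul_mem_right _ _ (hcoef _))
  have hg0 : g.coeff 0 = 1 := by
    have := congrArg (fun q : R[X] => q.coeff 0) hg
    simp only [mul_sub, mul_one, coeff_sub, ← mul_assoc, coeff_one_zero] at this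
    rw [coeff_mul_X_zero, sub_zero] at this
    exact this
  have hgs : ∀ k, g.coeff (k + 1) = g.coeff k * f := by
    intro k
    have := congrArg (fun q : R[X] => q.coeff (k + 1)) hg
    simp only [mul_sub, mul_one, coeff_sub, ← mul_assoc] at this
    rw [coeff_mul_X, coeff_mul_C, coeff_one, if_neg (by omega)] at this
    exact sub_eq_zero.1 this
  have hgk : ∀ k, g.coeff k = f ^ k := by
    intro k
    induction k with
    | zero => rw [hg0, pow_zero]
    | succ k ih => rw [hgs, ih, pow_succ]
  refine ⟨g.natDegree + 1, ?_⟩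
  rw [← hgk]
  exact coeff_eq_zero_of_natDegree_lt (by omega)

end Pool.Agent.W327.KCCorner
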