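import Pool.Agent.W886.LS.Stm0
import Pool.Agent.W886.RU.Stm0
import Pool.Agent.H620R2.Gauge.S

/-!
# Linear space and nondeterministic linear space are given by countably many local conditions
-/

set_option autoImplicit false

namespace Pool.Agent.W327.LSLOC

open Pool.Agent.NPC Pool.Agent.H620R2.Gauge Pool.Agent.H622R2.Exp
open Pool.Agent.W886 Pool.Agent.W886.LS

/-- deterministic condition -/
def F1 (Ψ : (ℕ → Bool) → (Fin 1 → ℕ) → ℕ) : Oracle → List Bool → Prop :=
  fun A y => Ψ (num A) (fun _ => idx y) = 0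

/-- nondeterministic condition -/
def F2 (Ψ : (ℕ → Bool) → (Fin 3 → ℕ) → ℕ) (k : ℕ) : Oracle → List Bool → Prop :=
  fun A y => Relation.ReflTransGen (fun c c' : ℕ => c < (idx y + 2) ^ k ∧ c' < (idx y + 2) ^ k ∧
    Ψ (num A) ![idx y, c, c'] = 0) 0 1

theorem agree (d : ℕ) (y : List Bool) (A A' : Oracle)
    (h : ∀ q : List Bool, q.length ≤ d * (y.length + 1) → A q = A' q) :
    ∀ i < (idx y + 2) ^ d, num A i = num A' i := by
  intro i hi
  unfold num
  apply h
  rw [length_str]
  have h1 : idx y + 2 ≤ 2 ^ (y.length + 1) := by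
    have := idx_lt y
    omega
  have h2 : (idx y + 2) ^ d ≤ 2 ^ (d * (y.length + 1)) := by
    calc (idx y + 2) ^ d ≤ (2 ^ (y.length + 1)) ^ d := Nat.pow_le_pow_left h1 d
      _ = 2 ^ (d * (y.length + 1)) := by rw [← pow_mul]; ring_nf
  calc Nat.log 2 (i + 1) ≤ Nat.log 2 (2 ^ (d * (y.length + 1))) := Nat.log_mono_right (by omega)
    _ = d * (y.length + 1) := Nat.log_pow (by norm_num) _

theorem task (h : RU.S_E2U) : S_LOC := by
  obtain ⟨U, hUc, hUe, hUl⟩ := h
  refine ⟨(F1 '' U 1) ∪ ((fun p : ((ℕ → Bool) → (Fin 3 → ℕ) → ℕ) × ℕ => F2 p.1 p.2) ''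
    ((U 3) ×ˢ Set.univ)), ?_, ?_, ?_⟩
  · exact ((hUc 1).image _).union (((hUc 3).prod Set.countable_univ).image _)
  · intro A L hL
    rcases hL with hL | hL
    · obtain ⟨f, hf, hR⟩ := hL
      obtain ⟨Ψ, hΨ, rfl⟩ := hUe (num A) 1 f hf
      refine ⟨F1 Ψ, Or.inl ⟨Ψ, hΨ, rfl⟩, ?_⟩
      intro y
      have h1 := hR (fun _ => idx y)
      simp only [str_idx] at h1
      unfold F1
      constructor
      · intro hy
        exact h1.1 hy
      · intro hy
        by_contra hn
        have := h1.2 hn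
        rw [this] at hy
        exact one_ne_zero hy
    · obtain ⟨R, k, ⟨f, hf, hR⟩, hx⟩ := hL
      obtain ⟨Ψ, hΨ, rfl⟩ := hUe (num A) 3 f hf
      refine ⟨F2 Ψ k, Or.inr ⟨(Ψ, k), ⟨hΨ, Set.mem_univ _⟩, rfl⟩, ?_⟩
      intro y
      have h1 := hx (idx y)
      rw [str_idx] at h1
      rw [h1]
      have h2 : ∀ v, R v ↔ Ψ (num A) v = 0 := by
        intro v
        constructor
        · intro hy
          exact (hR v).1 hy
        · intro hy
          by_contra hn
          have := (hR v).2 hn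
          rw [this] at hy
          exact one_ne_zero hy
      unfold F2
      simp only [h2]
  · intro Φ hΦ
    rcases hΦ with ⟨Ψ, hΨ, rfl⟩ | ⟨⟨Ψ, k⟩, ⟨hΨ, -⟩, rfl⟩
    · obtain ⟨d, hd⟩ := hUl 1 Ψ hΨ
      refine ⟨d, ?_⟩
      intro y A A' hA
      have h1 := agree d y A A' hA
      have h2 := hd (idx y) (fun _ => idx y) (fun _ => le_refl _) (num A) (num A') h1
      unfold F1
      rw [h2]
    · obtain ⟨d, hd⟩ := hUl 3 Ψ hΨ
      refine ⟨(k + 2) * d, ?_⟩
      intro y A A' hA
      have h1 := agree ((k + 2) * d) y A A' hA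
      have hm : (idx y + 2) ^ (k + 1) + 2 ≤ (idx y + 2) ^ (k + 2) := by
        have e1 : (idx y + 2) ^ (k + 2) = (idx y + 2) ^ (k + 1) * (idx y + 2) := by ring
        have e2 : 2 ≤ (idx y + 2) ^ (k + 1) := by
          calc 2 ≤ idx y + 2 := by omega
            _ = (idx y + 2) ^ 1 := by ring
            _ ≤ (idx y + 2) ^ (k + 1) := Nat.pow_le_pow_right (by omega) (by omega)
        rw [e1]
        nlinarith
      have hk : (idx y + 2) ^ k ≤ (idx y + 2) ^ (k + 1) :=
        Nat.pow_le_pow_right (by omega) (by omega)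
      have hy0 : idx y ≤ (idx y + 2) ^ (k + 1) := by
        calc idx y ≤ idx y + 2 := by omega
          _ = (idx y + 2) ^ 1 := by ring
          _ ≤ (idx y + 2) ^ (k + 1) := Nat.pow_le_pow_right (by omega) (by omega)
      have key : ∀ c c' : ℕ, c < (idx y + 2) ^ k → c' < (idx y + 2) ^ k →
          Ψ (num A) ![idx y, c, c'] = Ψ (num A') ![idx y, c, c'] := by
        intro c c' hc hc'
        apply hd ((idx y + 2) ^ (k + 1))
        · intro i
          fin_cases i
          · exact hy0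
          · exact (hc.le.trans hk)
          · exact (hc'.le.trans hk)
        · intro i hi
          apply h1 i
          calc i < ((idx y + 2) ^ (k + 1) + 2) ^ d := hi
            _ ≤ ((idx y + 2) ^ (k + 2)) ^ d := Nat.pow_le_pow_left hm d
            _ = (idx y + 2) ^ ((k + 2) * d) := by rw [← pow_mul]
      have hrel : (fun c c' : ℕ => c < (idx y + 2) ^ k ∧ c' < (idx y + 2) ^ k ∧
          Ψ (num A) ![idx y, c, c'] = 0) = (fun c c' : ℕ => c < (idx y + 2) ^ k ∧
          c' < (idx y + 2) ^ k ∧ Ψ (num A') ![idx y, c, c'] = 0) := by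
        funext c c'
        apply propext
        constructor
        · rintro ⟨a, b, e⟩
          exact ⟨a, b, by rw [← key c c' a b]; exact e⟩
        · rintro ⟨a, b, e⟩
          exact ⟨a, b, by rw [key c c' a b]; exact e⟩
      show F2 Ψ k A y ↔ F2 Ψ k A' y
      unfold F2
      rw [hrel]

end Pool.Agent.W327.LSLOC
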