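import Pool.Agent.W886.RU.Stm0

set_option autoImplicit false

namespace Pool.Agent.W327.RUSparse

open Pool.Agent.W886.RU

theorem task : S_SPARSE := by
  classical
  intro ε hε
  obtain ⟨K₀, hK₀⟩ := exists_nat_ge (2 / ε)
  refine ⟨K₀ + 1, fun K hK => ?_⟩
  filter_upwards [Filter.eventually_ge_atTop 1] with N hN
  have hN1 : (1 : ℝ) ≤ N := by exact_mod_cast hN
  have hN0 : (0 : ℝ) ≤ N := by linarith
  have hk : (0 : ℝ) < ((K₀ + 1 : ℕ) : ℝ) := by positivity
  obtain ⟨R, hR⟩ : ∃ R : ℝ, R = (N : ℝ) ^ (1 / ((K₀ + 1 : ℕ) : ℝ)) := ⟨_, rfl⟩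
  have hR0 : 0 ≤ R := by rw [hR]; positivity
  obtain ⟨T, hT⟩ : ∃ T : ℕ, T = ⌊R⌋₊ := ⟨_, rfl⟩
  have hTR : (T : ℝ) ≤ R := by rw [hT]; exact Nat.floor_le hR0
  have hsub : (Finset.range N).filter (fun y => ∃ e x, y = cd K e x) ⊆
      (Finset.range T ×ˢ Finset.range T).image (fun p : ℕ × ℕ => cd K p.1 p.2) := by
    intro y hy
    rw [Finset.mem_filter, Finset.mem_range] at hy
    obtain ⟨hyN, e, x, rfl⟩ := hy
    have h1 : (x + e + 2) ^ (K₀ + 1) ≤ (x + e + 2) ^ K e :=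
      Nat.pow_le_pow_right (by omega) (hK e)
    have h2 : (x + e + 2) ^ K e ≤ cd K e x := by
      unfold cd
      have h3 : 1 ≤ 2 ^ e := Nat.one_le_two_pow
      calc (x + e + 2) ^ K e ≤ 1 * (2 * (x + e + 2) ^ K e + 1) := by omega
        _ ≤ 2 ^ e * (2 * (x + e + 2) ^ K e + 1) := Nat.mul_le_mul_right _ h3
    have h4 : (x + e + 2) ^ (K₀ + 1) < N := by omega
    have h5 : ((x + e + 2 : ℕ) : ℝ) ≤ R := by
      have h6 : ((x + e + 2 : ℕ) : ℝ) ^ (K₀ + 1) ≤ N := by exact_mod_cast h4.le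
      rw [hR]
      have h7 : ((x + e + 2 : ℕ) : ℝ) =
          (((x + e + 2 : ℕ) : ℝ) ^ (K₀ + 1)) ^ (1 / ((K₀ + 1 : ℕ) : ℝ)) := by
        rw [one_div, Real.pow_rpow_inv_natCast (by positivity) (by omega)]
      rw [h7]
      exact Real.rpow_le_rpow (by positivity) h6 (by positivity)
    have h8 : x + e + 2 ≤ T := by
      rw [hT]
      exact Nat.le_floor h5
    rw [Finset.mem_image]
    refine ⟨(e, x), ?_, rfl⟩
    rw [Finset.mem_product, Finset.mem_range, Finset.mem_range]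
    constructor
    · show e < T
      omega
    · show x < T
      omega
  have hcard : ((Finset.range N).filter (fun y => ∃ e x, y = cd K e x)).card ≤ T * T := by
    refine (Finset.card_le_card hsub).trans (Finset.card_image_le.trans ?_)
    rw [Finset.card_product, Finset.card_range]
  have h9 : (((Finset.range N).filter (fun y => ∃ e x, y = cd K e x)).card : ℝ) ≤ T * T := by
    exact_mod_cast hcard
  refine h9.trans ?_
  have h10 : (T : ℝ) * T ≤ R * R := mul_le_mul hTR hTR (by positivity) hR0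
  refine h10.trans ?_
  rw [hR, ← Real.rpow_add (by linarith)]
  refine Real.rpow_le_rpow_of_exponent_le hN1 ?_
  rw [← add_div, div_le_iff₀ hk]
  have h11 : 2 ≤ ε * K₀ := by
    rw [div_le_iff₀ hε] at hK₀
    linarith
  push_cast
  nlinarith

end Pool.Agent.W327.RUSparse
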